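import Pool.Agent.W467.Main

/-! The associated form; power series versus polynomials. -/

set_option autoImplicit false

namespace Pool.Agent.W467.AF

open MvPolynomial

variable {n d : ℕ}

theorem coeff_linPow {N : ℕ} (w : Fin n → ℂ) (α : Mon n N) :
    coeff α.1 ((∑ i, C (w i) * X i) ^ N : MvPolynomial (Fin n) ℂ) =
      (Nat.multinomial Finset.univ α.1 : ℂ) * ∏ i, w i ^ α.1 i := by
  classical
  rw [Finset.sum_pow_eq_sum_piAntidiag, coeff_sum]
  have h1 : ∀ k : Fin n → ℕ, ((Nat.multinomial Finset.univ k : ℕ) : MvPolynomial (Fin n) ℂ) *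
      ∏ i, (C (w i) * X i) ^ k i = monomial (Finsupp.equivFunOnFinite.symm k)
        ((Nat.multinomial Finset.univ k : ℂ) * ∏ i, w i ^ k i) := by
    intro k
    rw [monomial_eq, Finsupp.prod_fintype _ _ (by simp)]
    simp only [mul_pow, Finset.prod_mul_distrib, ← C_eq_coe_nat, C_mul, map_prod, map_pow,
      Finsupp.equivFunOnFinite_symm_apply_apply]
    ring
  simp only [h1, coeff_monomial]
  rw [Finset.sum_eq_single (α.1 : Fin n → ℕ)]
  · rw [if_pos (by ext i; rfl)]
  · intro k _ hk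
    rw [if_neg]
    intro h
    apply hk
    rw [← h]
    rfl
  · intro h
    exfalso
    apply h
    rw [Finset.mem_piAntidiag]
    refine ⟨?_, fun i _ => Finset.mem_univ i⟩
    have := α.2
    rwa [Finsupp.degree_eq_sum] at this

theorem linPow_homog (N : ℕ) (w : Fin n → ℂ) :
    ((∑ i, C (w i) * X i) ^ N : MvPolynomial (Fin n) ℂ).IsHomogeneous N := by
  have := (IsHomogeneous.sum Finset.univ (fun i => (C (w i) * X i : MvPolynomial (Fin n) ℂ)) 1
    (fun i _ => isHomogeneous_C_mul_X _ _)).pow N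
  rwa [one_mul] at this

/-- the form with coefficients `multinomial * c` -/
noncomputable def aform (N : ℕ) (c : Mon n N → ℂ) : MvPolynomial (Fin n) ℂ :=
  ∑ α, monomial α.1 ((Nat.multinomial Finset.univ α.1 : ℂ) * c α)

theorem aform_homog (N : ℕ) (c : Mon n N → ℂ) : (aform N c).IsHomogeneous N :=
  IsHomogeneous.sum _ _ _ (fun α _ => isHomogeneous_monomial _ α.2)

theorem coeff_aform (N : ℕ) (c : Mon n N → ℂ) (α : Mon n N) :
    coeff α.1 (aform N c) = (Nat.multinomial Finset.univ α.1 : ℂ) * c α := by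
  classical
  rw [aform, coeff_sum, Finset.sum_eq_single α]
  · rw [coeff_monomial, if_pos rfl]
  · intro γ _ hγ
    rw [coeff_monomial, if_neg (fun h => hγ (Subtype.ext h))]
  · intro h; exact absurd (Finset.mem_univ _) h

theorem eval_aform (N : ℕ) (c : Mon n N → ℂ) (w : Fin n → ℂ) :
    eval w (aform N c) = ∑ α : Mon n N,
      coeff α.1 ((∑ i, C (w i) * X i) ^ N : MvPolynomial (Fin n) ℂ) * c α := by
  rw [aform, map_sum]
  refine Finset.sum_congr rfl (fun α _ => ?_)
  rw [coeff_linPow, eval_monomial, Finsupp.prod_fintype _ _ (by simp)]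
  ring

/-- the defining property of the associated form, with the ideal in the polynomial ring -/
def IsAF (n d : ℕ) (f G : MvPolynomial (Fin n) ℂ) : Prop :=
  G.IsHomogeneous (n * (d - 2)) ∧ ∀ w : Fin n → ℂ,
    (∑ i, C (w i) * X i) ^ (n * (d - 2)) - C (eval w G) * hess f ∈ jac f

theorem aform_spec (f : MvPolynomial (Fin n) ℂ) (c : Mon n (n * (d - 2)) → ℂ)
    (hc : ∀ α, monomial α.1 1 - C (c α) * hess f ∈ jac f) (w : Fin n → ℂ) :
    (∑ i, C (w i) * X i) ^ (n * (d - 2)) - C (eval w (aform _ c)) * hess f ∈ jac f := by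
  set L : MvPolynomial (Fin n) ℂ := (∑ i, C (w i) * X i) ^ (n * (d - 2)) with hL
  have h1 : L - C (eval w (aform _ c)) * hess f =
      ∑ α : Mon n (n * (d - 2)), C (coeff α.1 L) * (monomial α.1 1 - C (c α) * hess f) := by
    rw [eval_aform, ← hL]
    conv_lhs => enter [1]; rw [← sum_mon L (linPow_homog _ _)]
    rw [map_sum, Finset.sum_mul, ← Finset.sum_sub_distrib]
    refine Finset.sum_congr rfl (fun α _ => ?_)
    rw [mul_sub, C_mul_monomial, mul_one, C_mul]
    ring
  rw [h1]
  exact Ideal.sum_mem _ (fun α _ => Ideal.mul_mem_left _ _ (hc α))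

theorem isAF_iff (hn : 2 ≤ n) (hd : 3 ≤ d) (f : MvPolynomial (Fin n) ℂ)
    (hf : f.IsHomogeneous d) (hnd : ¬ Degen f) (c : Mon n (n * (d - 2)) → ℂ)
    (hc : ∀ α, monomial α.1 1 - C (c α) * hess f ∈ jac f) (G : MvPolynomial (Fin n) ℂ) :
    IsAF n d f G ↔ G = aform _ c := by
  constructor
  · rintro ⟨-, h⟩
    apply MvPolynomial.funext
    intro w
    exact c_unique hn hd f hf hnd _ _ _ (h w) (aform_spec f c hc w)
  · rintro rfl
    exact ⟨aform_homog _ _, aform_spec f c hc⟩

theorem existsUnique_AF (hn : 2 ≤ n) (hd : 3 ≤ d) (f : MvPolynomial (Fin n) ℂ)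
    (hf : f.IsHomogeneous d) (hnd : ¬ Degen f) : ∃! G, IsAF n d f G := by
  have h1 : ∀ α : Mon n (n * (d - 2)), ∃ c : ℂ, monomial α.1 1 - C c * hess f ∈ jac f :=
    fun α => exists_c (by omega) f hf hnd _ (isHomogeneous_monomial 1 α.2)
  choose c hc using h1
  exact ⟨aform _ c, (isAF_iff hn hd f hf hnd c hc _).2 rfl,
    fun G hG => (isAF_iff hn hd f hf hnd c hc _).1 hG⟩

/-- `Δ Φ` is a polynomial map, for every `Δ` vanishing on degenerate forms -/
theorem extends_one (hn : 2 ≤ n) (hd : 3 ≤ d) (Δ : MvPolynomial (Mon n d) ℂ) (hΔ : VanDeg Δ) :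
    ∃ P : Mon n (n * (d - 2)) → MvPolynomial (Mon n d) ℂ,
      ∀ f G : MvPolynomial (Fin n) ℂ, f.IsHomogeneous d → ¬ Degen f → IsAF n d f G →
        ∀ α, eval (coords n d f) Δ * coeff α.1 G = eval (coords n d f) (P α) := by
  obtain ⟨P, hP⟩ := exists_P (by omega : 2 ≤ d) Δ hΔ
  refine ⟨fun α => C (Nat.multinomial Finset.univ α.1 : ℂ) * P α, fun f G hf hnd hG α => ?_⟩
  have h1 : ∀ α : Mon n (n * (d - 2)), ∃ c : ℂ, monomial α.1 1 - C c * hess f ∈ jac f :=
    fun α => exists_c (by omega) f hf hnd _ (isHomogeneous_monomial 1 α.2)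
  choose c hc using h1
  rw [(isAF_iff hn hd f hf hnd c hc G).1 hG, coeff_aform, map_mul, eval_C]
  have h2 : eval (coords n d f) Δ * c α = eval (coords n d f) (P α) := by
    have h3 := P_spec f hf Δ (P α) (monomial α.1 1) (hP α)
    have h4 : C (eval (coords n d f) Δ) * monomial α.1 1 -
        C (eval (coords n d f) Δ * c α) * hess f ∈ jac f := by
      have h5 : C (eval (coords n d f) Δ) * monomial α.1 1 -
          C (eval (coords n d f) Δ * c α) * hess f =
          C (eval (coords n d f) Δ) * (monomial α.1 1 - C (c α) * hess f) := by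
        rw [C_mul]; ring
      rw [h5]
      exact Ideal.mul_mem_left _ _ (hc α)
    exact c_unique hn hd f hf hnd _ _ _ h4 h3
  rw [← h2]
  ring

/-- the ideal generated by the partial derivatives in the power series ring -/
noncomputable def jacPS (f : MvPolynomial (Fin n) ℂ) : Ideal (MvPowerSeries (Fin n) ℂ) :=
  Ideal.span (Set.range fun i => ((pderiv i f : MvPolynomial (Fin n) ℂ) : MvPowerSeries (Fin n) ℂ))

theorem mem_jacPS_iff (f : MvPolynomial (Fin n) ℂ) (hf : f.IsHomogeneous d) {m : ℕ}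
    (hm : d - 1 ≤ m) (h : MvPolynomial (Fin n) ℂ) (hh : h.IsHomogeneous m) :
    ((h : MvPowerSeries (Fin n) ℂ) ∈ jacPS f) ↔ h ∈ jac f := by
  classical
  constructor
  · intro hmem
    obtain ⟨φ, hφ⟩ := Ideal.mem_span_range_iff_exists_fun.1 hmem
    -- truncate
    let ψ : Fin n → MvPolynomial (Fin n) ℂ := fun i =>
      ∑ γ : Mon n (m - (d - 1)), monomial γ.1 (MvPowerSeries.coeff γ.1 (φ i))
    have hψ : ∀ i, (ψ i).IsHomogeneous (m - (d - 1)) := fun i =>
      IsHomogeneous.sum _ _ _ (fun γ _ => isHomogeneous_monomial _ γ.2)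
    have hψc : ∀ i (γ : Fin n →₀ ℕ), γ.degree = m - (d - 1) →
        coeff γ (ψ i) = MvPowerSeries.coeff γ (φ i) := by
      intro i γ hγ
      simp only [ψ, coeff_sum, coeff_monomial]
      rw [Finset.sum_eq_single (⟨γ, hγ⟩ : Mon n (m - (d - 1)))]
      · rw [if_pos rfl]
      · intro β _ hβ
        rw [if_neg (fun h => hβ (Subtype.ext h))]
      · intro h; exact absurd (Finset.mem_univ _) h
    have h1 : h = ∑ i, ψ i * pderiv i f := by
      ext β
      by_cases hβ : β.degree = m
      · rw [← coeff_coe, ← hφ, map_sum, coeff_sum]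
        refine Finset.sum_congr rfl (fun i _ => ?_)
        rw [MvPowerSeries.coeff_mul, coeff_mul]
        refine Finset.sum_congr rfl (fun p hp => ?_)
        rw [Finset.HasAntidiagonal.mem_antidiagonal] at hp
        rw [coeff_coe]
        by_cases hp2 : p.2.degree = d - 1
        · rw [hψc]
          have := congrArg Finsupp.degree hp
          rw [map_add, hβ] at this
          omega
        · rw [(hf.pderiv (i := i)).coeff_eq_zero hp2, mul_zero, mul_zero]
      · rw [hh.coeff_eq_zero hβ]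
        symm
        refine IsHomogeneous.coeff_eq_zero (n := m) (IsHomogeneous.sum _ _ _ (fun i _ => ?_)) hβ
        have := (hψ i).mul (hf.pderiv (i := i))
        rwa [show m - (d - 1) + (d - 1) = m by omega] at this
    rw [h1]
    exact Ideal.sum_mem _ (fun i _ => Ideal.mul_mem_left _ _ (Ideal.subset_span ⟨i, rfl⟩))
  · intro hmem
    have h1 : jac f ≤ (jacPS f).comap (coeToMvPowerSeries.ringHom (R := ℂ) (σ := Fin n)) := by
      refine Ideal.span_le.2 ?_
      rintro _ ⟨i, rfl⟩
      exact Ideal.subset_span ⟨i, rfl⟩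
    exact h1 hmem

end Pool.Agent.W467.AF
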