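import Pool.Agent.W467.Gen2

/-! Inertia forms of degree `n (d - 2)` of the partial derivatives of the generic form. -/

set_option autoImplicit false

namespace Pool.Agent.W467.AF

open MvPolynomial

variable {n d : ℕ}

theorem me_inl (e : ℕ) (i k : Fin n) : me n d e i (Sum.inl k) = if k = i then e else 0 := by
  classical
  rw [me, Finsupp.add_apply, Finsupp.single_apply, Finsupp.single_apply, if_neg (by simp), zero_add]
  simp only [Sum.inl.injEq]
  by_cases h : k = i
  · rw [if_pos h.symm, if_pos h]
  · rw [if_neg (fun h' => h h'.symm), if_neg h]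

theorem me_inr (e : ℕ) (i : Fin n) (β : Mon n d) [Decidable (β = pure' n d i)] :
    me n d e i (Sum.inr β) = if β = pure' n d i then 1 else 0 := by
  classical
  rw [me, Finsupp.add_apply, Finsupp.single_apply, Finsupp.single_apply,
    if_neg (by simp : ¬ (Sum.inl i : Var n d) = Sum.inr β), add_zero]
  simp only [Sum.inr.injEq]
  by_cases h : β = pure' n d i
  · rw [if_pos h.symm, if_pos h]
  · rw [if_neg (fun h' => h h'.symm), if_neg h]

/-- the rewriting system given by the partial derivatives -/
noncomputable def R (n d : ℕ) (hd : 2 ≤ d) : RW (Var n d) ℂ (Fin n) where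
  W := W n d
  m := me n d (d - 1)
  G := fun j => monomial (me n d (d - 1) j) 1 - C ((d : ℂ)⁻¹) * F n d j
  cop := by
    classical
    intro i j hij t
    rcases t with k | β
    · rw [me_inl, me_inl]
      by_cases h : k = i
      · right; rw [if_neg (fun h' => hij (h.symm.trans h'))]
      · left; rw [if_neg h]
    · rw [me_inr, me_inr]
      by_cases h : β = pure' n d i
      · right; rw [if_neg (fun h' => hij (pure_inj (by omega) (h.symm.trans h')))]
      · left; rw [if_neg h]
  low := by
    intro j γ hγ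
    rw [W_me (by omega)]
    have hd0 : (d : ℂ) ≠ 0 := Nat.cast_ne_zero.2 (by omega)
    have h1 : (monomial (me n d (d - 1) j) 1 - C ((d : ℂ)⁻¹) * F n d j : S n d) =
        -((d : ℂ)⁻¹ • (F n d j - monomial (me n d (d - 1) j) (d : ℂ))) := by
      rw [smul_sub, smul_monomial, smul_eq_mul, inv_mul_cancel₀ hd0, C_mul']
      ring
    have h2 : (monomial (me n d (d - 1) j) 1 - C ((d : ℂ)⁻¹) * F n d j : S n d) ∈ LT n d 1 := by
      rw [h1]
      exact Submodule.neg_mem _ (Submodule.smul_mem _ _ (top_F hd j))
    exact mem_LT.1 h2 γ hγ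

theorem R_I (hd : 2 ≤ d) : (R n d hd).I = J n d := by
  have hd0 : (d : ℂ) ≠ 0 := Nat.cast_ne_zero.2 (by omega)
  apply le_antisymm
  · refine Ideal.span_le.2 ?_
    rintro _ ⟨j, rfl⟩
    simp only [R, sub_sub_cancel]
    exact Ideal.mul_mem_left _ _ (F_mem j)
  · refine Ideal.span_le.2 ?_
    rintro _ ⟨j, rfl⟩
    have h1 : F n d j = C (d : ℂ) * (monomial ((R n d hd).m j) 1 - (R n d hd).G j) := by
      simp only [R, sub_sub_cancel]
      rw [← mul_assoc, ← C_mul, mul_inv_cancel₀ hd0, C_1, one_mul]
    rw [h1]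
    exact Ideal.mul_mem_left _ _ (Ideal.subset_span ⟨j, rfl⟩)

/-- leading monomials of the elements of `J` -/
theorem initJ (hd : 2 ≤ d) {h : S n d} (hh : h ∈ J n d) (D : ℕ) (hD : h ∈ LT n d (D + 1))
    (μ : Var n d →₀ ℕ) (hμ : μ ∈ h.support) (hμD : W n d μ = D) : ∃ j, me n d (d - 1) j ≤ μ := by
  rw [← R_I hd] at hh
  exact (R n d hd).init hh D (fun x hx => Nat.lt_succ_iff.1 (mem_LT.1 hD x hx)) μ hμ hμD

theorem F_sub_LT (hd : 2 ≤ d) (j : Fin n) :
    (C ((d : ℂ)⁻¹) * F n d j - monomial (me n d (d - 1) j) 1 : S n d) ∈ LT n d 1 := by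
  have hd0 : (d : ℂ) ≠ 0 := Nat.cast_ne_zero.2 (by omega)
  have h1 : (C ((d : ℂ)⁻¹) * F n d j - monomial (me n d (d - 1) j) 1 : S n d) =
      ((d : ℂ)⁻¹ • (F n d j - monomial (me n d (d - 1) j) (d : ℂ))) := by
    rw [smul_sub, smul_monomial, smul_eq_mul, inv_mul_cancel₀ hd0, C_mul']
  rw [h1]
  exact Submodule.smul_mem _ _ (top_F hd j)

theorem weight_me (e : ℕ) (j : Fin n) : Finsupp.weight (wz n d) (me n d e j) = e := by
  rw [weight_wz, Finset.sum_eq_single j]
  · rw [me_inl, if_pos rfl]
  · intro i _ hi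
    rw [me_inl, if_neg hi]
  · simp

theorem W_eH (hd : 0 < d) : W n d (eH n d) = n := by
  rw [eH, map_sum, Finset.sum_congr rfl (fun i _ => W_me hd _ i)]
  simp

theorem eH_inl (i : Fin n) : eH n d (Sum.inl i) = d - 2 := by
  rw [eH, Finsupp.finsetSum_apply, Finset.sum_eq_single i]
  · rw [me_inl, if_pos rfl]
  · intro j _ hj
    rw [me_inl, if_neg hj.symm]
  · simp

theorem eH_inr (β : Mon n d) (hd : 0 < d) [DecidableEq (Mon n d)] :
    eH n d (Sum.inr β) = if ∃ i, β = pure' n d i then 1 else 0 := by
  classical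
  rw [eH, Finsupp.finsetSum_apply]
  split_ifs with h
  · obtain ⟨i, rfl⟩ := h
    rw [Finset.sum_eq_single i]
    · rw [me_inr, if_pos rfl]
    · intro j _ hj
      rw [me_inr, if_neg (fun h => hj (pure_inj hd h).symm)]
    · simp
  · push Not at h
    refine Finset.sum_eq_zero (fun i _ => ?_)
    rw [me_inr, if_neg (h i)]

theorem step (hd : 2 ≤ d) (D : ℕ) (μ : Var n d →₀ ℕ) (hW : W n d μ = D)
    (hZ : Finsupp.weight (wz n d) μ = n * (d - 2))
    (hdiv : ∀ i, ∃ N j, me n d (d - 1) j ≤ μ + Finsupp.single (Sum.inl i) N) :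
    ∃ (t : S n d) (a : MvPolynomial (Mon n d) ℂ), t - rename Sum.inr a * H n d ∈ J n d ∧
      IsWeightedHomogeneous (wz n d) t (n * (d - 2)) ∧ t - monomial μ 1 ∈ LT n d D := by
  classical
  by_cases hex : ∃ j, me n d (d - 1) j ≤ μ
  · obtain ⟨j, hj⟩ := hex
    obtain ⟨y, rfl⟩ : ∃ y, μ = y + me n d (d - 1) j := ⟨μ - me n d (d - 1) j,
      (tsub_add_cancel_of_le hj).symm⟩
    refine ⟨monomial y 1 * (C ((d : ℂ)⁻¹) * F n d j), 0, ?_, ?_, ?_⟩
    · rw [map_zero, zero_mul, sub_zero]
      exact Ideal.mul_mem_left _ _ (Ideal.mul_mem_left _ _ (F_mem j))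
    · rw [← hZ, map_add, weight_me]
      refine (isWeightedHomogeneous_monomial _ _ _ rfl).mul ?_
      rw [C_mul']
      exact (weightedHomogeneousSubmodule ℂ (wz n d) (d - 1)).smul_mem _ (F_homog j)
    · have h1 : (monomial y 1 * (C ((d : ℂ)⁻¹) * F n d j) - monomial (y + me n d (d - 1) j) 1 :
          S n d) = monomial y 1 * (C ((d : ℂ)⁻¹) * F n d j - monomial (me n d (d - 1) j) 1) := by
        rw [mul_sub, monomial_mul, one_mul]
      rw [h1, ← hW, map_add, W_me (by omega)]
      exact mul_LT (monomial_LT y 1 (Nat.lt_succ_self _)) (F_sub_LT hd j)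
  · push Not at hex
    -- `μ` is divisible by all `u_i`, and has `z_i`-degree at most `d - 2`
    have hle : ∀ i, me n d (d - 1) i ≤ μ + Finsupp.single (Sum.inl i) (d - 1) ∧
        μ (Sum.inl i) ≤ d - 2 := by
      intro i
      obtain ⟨N, j, hj⟩ := hdiv i
      have hji : j = i := by
        by_contra hne
        apply hex j
        intro t
        have h2 := hj t
        rw [Finsupp.add_apply, Finsupp.single_apply] at h2
        split_ifs at h2 with h3
        · subst h3
          rw [me_inl, if_neg (fun h => hne h.symm)]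
          exact Nat.zero_le _
        · rwa [add_zero] at h2
      subst hji
      have hu : ∀ t, me n d (d - 1) j (Sum.inr t) ≤ μ (Sum.inr t) := by
        intro t
        have h2 := hj (Sum.inr t)
        rwa [Finsupp.add_apply, Finsupp.single_apply, if_neg (by simp), add_zero] at h2
      constructor
      · intro t
        rcases t with k | β
        · rw [Finsupp.add_apply, me_inl, Finsupp.single_apply]
          by_cases hk : k = j
          · subst hk
            rw [if_pos rfl, if_pos rfl]; omega
          · rw [if_neg hk]; omega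
        · rw [Finsupp.add_apply, Finsupp.single_apply, if_neg (by simp), add_zero]
          exact hu β
      · by_contra hcon
        apply hex j
        intro t
        rcases t with k | β
        · rw [me_inl]
          split_ifs with hk
          · subst hk; omega
          · omega
        · exact hu β
    have hsum : ∑ i, μ (Sum.inl i) = ∑ _i : Fin n, (d - 2) := by
      rw [← weight_wz, hZ]; simp
    have heq : ∀ i, μ (Sum.inl i) = d - 2 := by
      intro i
      exact (Finset.sum_eq_sum_iff_of_le (fun i _ => (hle i).2)).1 hsum i (Finset.mem_univ _)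
    -- the remaining monomial in the coefficients
    set κ : Mon n d →₀ ℕ := Finsupp.comapDomain Sum.inr (μ - eH n d)
      (Sum.inr_injective.injOn) with hκ
    have hμ : μ = κ.mapDomain Sum.inr + eH n d := by
      ext t
      rcases t with k | β
      · rw [Finsupp.add_apply, Finsupp.mapDomain_of_notMem_range, zero_add, eH_inl, heq]
        rintro ⟨y, hy⟩; exact Sum.inr_ne_inl hy
      · rw [Finsupp.add_apply, Finsupp.mapDomain_apply Sum.inr_injective, hκ,
          Finsupp.comapDomain_apply, Finsupp.tsub_apply, tsub_add_cancel_of_le]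
        rw [eH_inr β (by omega)]
        split_ifs with h
        · obtain ⟨i, rfl⟩ := h
          have h2 := (hle i).1 (Sum.inr (pure' n d i))
          rw [me_inr, if_pos rfl, Finsupp.add_apply, Finsupp.single_apply, if_neg (by simp),
            add_zero] at h2
          exact h2
        · exact Nat.zero_le _
    have hk := kH_ne (n := n) hd
    refine ⟨monomial (κ.mapDomain Sum.inr) (kH n d)⁻¹ * H n d, monomial κ (kH n d)⁻¹, ?_, ?_, ?_⟩
    · rw [rename_monomial, sub_self]
      exact Ideal.zero_mem _
    · have h0 : Finsupp.weight (wz n d) (κ.mapDomain Sum.inr) = 0 := by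
        rw [weight_wz]
        refine Finset.sum_eq_zero (fun i _ => ?_)
        rw [Finsupp.mapDomain_of_notMem_range]
        rintro ⟨y, hy⟩; exact Sum.inr_ne_inl hy
      have := (isWeightedHomogeneous_monomial (wz n d) (κ.mapDomain Sum.inr) (kH n d)⁻¹ h0).mul
        (H_homog (n := n) (d := d))
      rwa [zero_add] at this
    · have h1 : (monomial (κ.mapDomain Sum.inr) (kH n d)⁻¹ * H n d - monomial μ 1 : S n d) =
          monomial (κ.mapDomain Sum.inr) (kH n d)⁻¹ * (H n d - monomial (eH n d) (kH n d)) := by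
        rw [mul_sub, monomial_mul, inv_mul_cancel₀ hk, ← hμ]
      rw [h1, ← hW]
      have h2 : W n d μ = W n d (κ.mapDomain Sum.inr) + n := by
        conv_lhs => rw [hμ]
        rw [map_add, W_eH (by omega)]
      rw [h2]
      exact mul_LT (monomial_LT _ _ (Nat.lt_succ_self _)) (top_H hd)

theorem claim2 (hd : 2 ≤ d) : ∀ (D : ℕ) (g : S n d), g ∈ LT n d D →
    IsWeightedHomogeneous (wz n d) g (n * (d - 2)) →
    (∀ i, ∃ N, X (Sum.inl i) ^ N * g ∈ J n d) →
    ∃ a : MvPolynomial (Mon n d) ℂ, g - rename Sum.inr a * H n d ∈ J n d := by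
  classical
  intro D
  induction D with
  | zero =>
    intro g hg _ _
    refine ⟨0, ?_⟩
    have : g = 0 := by
      rw [← support_eq_empty, Finset.eq_empty_iff_forall_notMem]
      intro x hx
      exact absurd (mem_LT.1 hg x hx) (by omega)
    rw [this]; simp
  | succ D ih =>
    intro g hg hz hdiv
    have key : ∀ μ, ∃ (t : S n d) (a : MvPolynomial (Mon n d) ℂ), (μ ∈ g.support → W n d μ = D →
        t - rename Sum.inr a * H n d ∈ J n d ∧
        IsWeightedHomogeneous (wz n d) t (n * (d - 2)) ∧ t - monomial μ 1 ∈ LT n d D) := by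
      intro μ
      by_cases hμ : μ ∈ g.support ∧ W n d μ = D
      · obtain ⟨t, a, h⟩ := step hd D μ hμ.2 (hz (mem_support_iff.1 hμ.1)) (by
          intro i
          obtain ⟨N, hN⟩ := hdiv i
          refine ⟨N, initJ hd hN D ?_ (μ + Finsupp.single (Sum.inl i) N) ?_ ?_⟩
          · rw [X_pow_eq_monomial]
            have := mul_LT (a := 0) (b := D + 1)
              (monomial_LT (n := n) (d := d) (Finsupp.single (Sum.inl i) N) 1 (by
                rw [W_apply, Finset.sum_eq_zero]
                · omega
                · intro j _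
                  rw [Finsupp.single_apply, if_neg (by simp)])) hg
            rwa [zero_add] at this
          · rw [X_pow_eq_monomial, mem_support_iff, add_comm, coeff_monomial_mul, one_mul]
            exact mem_support_iff.1 hμ.1
          · rw [map_add, hμ.2, W_apply (Finsupp.single (Sum.inl i) N), Finset.sum_eq_zero,
              add_zero]
            intro j _
            rw [Finsupp.single_apply, if_neg (by simp)])
        exact ⟨t, a, fun _ _ => h⟩
      · exact ⟨0, 0, fun h1 h2 => absurd ⟨h1, h2⟩ hμ⟩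
    choose t a hta using key
    set T := g.support.filter (fun μ => W n d μ = D) with hT
    have hmem : ∀ μ ∈ T, μ ∈ g.support ∧ W n d μ = D := fun μ hμ => by
      rw [hT, Finset.mem_filter] at hμ; exact hμ
    have hg' : g - ∑ μ ∈ T, coeff μ g • t μ ∈ LT n d D := by
      have h1 : g - ∑ μ ∈ T, coeff μ g • t μ =
          ∑ μ ∈ g.support.filter (fun μ => ¬ W n d μ = D), monomial μ (coeff μ g) -
          ∑ μ ∈ T, coeff μ g • (t μ - monomial μ 1) := by
        conv_lhs => enter [1]; rw [← support_sum_monomial_coeff g]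
        rw [← Finset.sum_filter_add_sum_filter_not g.support (fun μ => W n d μ = D), ← hT]
        simp only [smul_sub, Finset.sum_sub_distrib]
        have : ∑ x ∈ T, (coeff x g • monomial x (1 : ℂ) : S n d) =
            ∑ x ∈ T, monomial x (coeff x g) :=
          Finset.sum_congr rfl (fun x _ => by rw [smul_monomial, smul_eq_mul, mul_one])
        rw [this]
        ring
      rw [h1]
      refine Submodule.sub_mem _ (Submodule.sum_mem _ (fun μ hμ => ?_))
        (Submodule.sum_mem _ (fun μ hμ => ?_))
      · rw [Finset.mem_filter] at hμ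
        have := mem_LT.1 hg μ hμ.1
        exact monomial_LT _ _ (by omega)
      · exact Submodule.smul_mem _ _ (hta μ (hmem μ hμ).1 (hmem μ hμ).2).2.2
    obtain ⟨a', ha'⟩ := ih (g - ∑ μ ∈ T, coeff μ g • t μ) hg' (by
      refine (weightedHomogeneousSubmodule ℂ (wz n d) _).sub_mem hz
        (Submodule.sum_mem _ (fun μ hμ => Submodule.smul_mem _ _ ?_))
      exact (hta μ (hmem μ hμ).1 (hmem μ hμ).2).2.1) (by
      intro i
      obtain ⟨N, hN⟩ := hdiv i
      refine ⟨N + 1, ?_⟩
      rw [mul_sub, Finset.mul_sum]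
      refine Ideal.sub_mem _ ?_ (Ideal.sum_mem _ (fun μ hμ => ?_))
      · rw [pow_succ', mul_assoc]
        exact Ideal.mul_mem_left _ _ hN
      · have h1 := (hta μ (hmem μ hμ).1 (hmem μ hμ).2).1
        have h2 : X (Sum.inl i) * t μ ∈ J n d := by
          have h3 : X (Sum.inl i) * t μ = X (Sum.inl i) * (t μ - rename Sum.inr (a μ) * H n d) +
              rename Sum.inr (a μ) * (X (Sum.inl i) * H n d) := by ring
          rw [h3]
          exact Ideal.add_mem _ (Ideal.mul_mem_left _ _ h1) (Ideal.mul_mem_left _ _ (z_mul_H i))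
        rw [smul_eq_C_mul, pow_succ]
        have h3 : (X (Sum.inl i) ^ N * X (Sum.inl i) * (C (coeff μ g) * t μ) : S n d) =
            X (Sum.inl i) ^ N * C (coeff μ g) * (X (Sum.inl i) * t μ) := by ring
        rw [h3]
        exact Ideal.mul_mem_left _ _ h2)
    refine ⟨a' + ∑ μ ∈ T, coeff μ g • a μ, ?_⟩
    have h1 : g - rename Sum.inr (a' + ∑ μ ∈ T, coeff μ g • a μ) * H n d =
        (g - ∑ μ ∈ T, coeff μ g • t μ - rename Sum.inr a' * H n d) +
        ∑ μ ∈ T, C (coeff μ g) * (t μ - rename Sum.inr (a μ) * H n d) := by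
      simp only [map_add, map_sum, mul_sub, Finset.sum_sub_distrib, smul_eq_C_mul, map_mul,
        rename_C]
      simp only [add_mul, Finset.sum_mul, mul_assoc]
      ring
    rw [h1]
    exact Ideal.add_mem _ ha' (Ideal.sum_mem _ (fun μ hμ => Ideal.mul_mem_left _ _
      (hta μ (hmem μ hμ).1 (hmem μ hμ).2).1))

/-- a nonzero multiple `a(c) H` is not in `J` -/
theorem mul_H_notMem (hd : 2 ≤ d) (a : MvPolynomial (Mon n d) ℂ) (ha : a ≠ 0) :
    rename Sum.inr a * H n d ∉ J n d := by
  classical
  intro hmem
  have hne : (rename Sum.inr a : S n d) ≠ 0 := by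
    intro h
    exact ha (rename_injective _ Sum.inr_injective (by rw [h, map_zero]))
  obtain ⟨x, hx, hmax⟩ := Finset.exists_max_image (rename Sum.inr a : S n d).support (W n d)
    (support_nonempty.2 hne)
  have ha' : (rename Sum.inr a : S n d) ∈ LT n d (W n d x + 1) := by
    rw [mem_LT]
    exact fun y hy => Nat.lt_succ_iff.2 (hmax y hy)
  have h1 : (rename Sum.inr a : S n d) * (H n d - monomial (eH n d) (kH n d)) ∈
      LT n d (W n d x + n) := mul_LT ha' (top_H hd)
  have hHLT : H n d ∈ LT n d (n + 1) := by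
    have h2 : H n d = (H n d - monomial (eH n d) (kH n d)) + monomial (eH n d) (kH n d) := by ring
    rw [h2]
    exact Submodule.add_mem _ (LT_mono (by omega) (top_H hd))
      (monomial_LT _ _ (by rw [W_eH (by omega)]; omega))
  have hLT : (rename Sum.inr a : S n d) * H n d ∈ LT n d (W n d x + n + 1) := by
    have := mul_LT ha' hHLT
    rwa [← add_assoc] at this
  have hWx : W n d (x + eH n d) = W n d x + n := by rw [map_add, W_eH (by omega)]
  have hco : x + eH n d ∈ ((rename Sum.inr a : S n d) * H n d).support := by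
    rw [mem_support_iff]
    have h2 : (rename Sum.inr a : S n d) * H n d =
        (rename Sum.inr a : S n d) * (H n d - monomial (eH n d) (kH n d)) +
        (rename Sum.inr a : S n d) * monomial (eH n d) (kH n d) := by ring
    rw [h2, coeff_add, coeff_mul_monomial]
    have h3 : coeff (x + eH n d) ((rename Sum.inr a : S n d) *
        (H n d - monomial (eH n d) (kH n d))) = 0 := by
      by_contra hcon
      have := mem_LT.1 h1 _ (mem_support_iff.2 hcon)
      omega
    rw [h3, zero_add]
    exact mul_ne_zero (mem_support_iff.1 hx) (kH_ne hd)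
  obtain ⟨j, hj⟩ := initJ hd hmem _ hLT _ hco hWx
  have h4 := hj (Sum.inl j)
  rw [me_inl, if_pos rfl, Finsupp.add_apply, eH_inl] at h4
  have h5 : x (Sum.inl j) = 0 := by
    rw [support_rename_of_injective Sum.inr_injective, Finset.mem_image] at hx
    obtain ⟨y, -, rfl⟩ := hx
    rw [Finsupp.mapDomain_of_notMem_range]
    rintro ⟨z, hz⟩; exact Sum.inr_ne_inl hz
  omega

end Pool.Agent.W467.AF
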