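import Pool.Agent.W467.Init

/-! The generic form of degree `d` in `n` variables and its derivatives. -/

set_option autoImplicit false

namespace Pool.Agent.W467.AF

open MvPolynomial

/-- exponent vectors of the monomials of degree `d` in `n` variables -/
abbrev Mon (n d : ℕ) : Type := {β : Fin n →₀ ℕ // β.degree = d}

noncomputable instance (n d : ℕ) : Fintype (Mon n d) :=
  Fintype.subtype (Finset.finsuppAntidiag Finset.univ d) (by
    intro β
    rw [Finset.mem_finsuppAntidiag, Finsupp.degree_eq_sum]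
    simp)

/-- variables: `z_1, …, z_n` and one variable for each monomial of degree `d` -/
abbrev Var (n d : ℕ) : Type := Fin n ⊕ Mon n d

/-- the polynomial ring in the `z_i` and the coefficients of a form of degree `d` -/
abbrev S (n d : ℕ) : Type := MvPolynomial (Var n d) ℂ

/-- the pure power `z_j ^ d` -/
noncomputable def pure' (n d : ℕ) (j : Fin n) : Mon n d := ⟨Finsupp.single j d, by
  rw [Finsupp.degree_single]⟩

theorem pure_inj {n d : ℕ} (hd : 0 < d) : Function.Injective (pure' n d) := by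
  intro i j h
  have h2 := congrArg Subtype.val h
  simp only [pure'] at h2
  rcases (Finsupp.single_eq_single_iff _ _ _ _).1 h2 with h | h
  · exact h.1
  · omega

/-- the weight counting the coefficients of the pure powers -/
noncomputable def W (n d : ℕ) : (Var n d →₀ ℕ) →+ ℕ :=
  ∑ j : Fin n, Finsupp.applyAddHom (Sum.inr (pure' n d j))

theorem W_apply {n d : ℕ} (x : Var n d →₀ ℕ) : W n d x = ∑ j, x (Sum.inr (pure' n d j)) := by
  rw [W, AddMonoidHom.finsetSum_apply]
  rfl

/-- the degree in the `z_i` -/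
def wz (n d : ℕ) : Var n d → ℕ := Sum.elim (fun _ => 1) (fun _ => 0)

theorem weight_wz {n d : ℕ} (x : Var n d →₀ ℕ) :
    Finsupp.weight (wz n d) x = ∑ j, x (Sum.inl j) := by
  rw [Finsupp.weight_apply, Finsupp.sum_fintype _ _ (by simp), Fintype.sum_sum_type]
  simp [wz]

/-- polynomials all of whose monomials have weight smaller than `D` -/
noncomputable def LT (n d D : ℕ) : Submodule ℂ (S n d) := restrictSupport ℂ {x | W n d x < D}

theorem mem_LT {n d D : ℕ} {p : S n d} : p ∈ LT n d D ↔ ∀ x ∈ p.support, W n d x < D := by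
  rw [LT, mem_restrictSupport_iff]
  rfl

theorem LT_mono {n d D E : ℕ} (h : D ≤ E) {p : S n d} (hp : p ∈ LT n d D) : p ∈ LT n d E := by
  rw [mem_LT] at hp ⊢
  exact fun x hx => (hp x hx).trans_le h

theorem mul_LT {n d a b : ℕ} {p q : S n d} (hp : p ∈ LT n d (a + 1)) (hq : q ∈ LT n d b) :
    p * q ∈ LT n d (a + b) := by
  classical
  rw [mem_LT] at hp hq ⊢
  intro x hx
  obtain ⟨y, hy, z, hz, rfl⟩ := Finset.mem_add.1 (support_mul p q hx)
  have h1 := hp y hy
  have h2 := hq z hz
  rw [map_add]; omega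

theorem monomial_LT {n d D : ℕ} (x : Var n d →₀ ℕ) (a : ℂ) (h : W n d x < D) :
    (monomial x a : S n d) ∈ LT n d D := by
  rw [mem_LT]
  intro y hy
  rw [Finset.mem_singleton.1 (support_monomial_subset hy)]
  exact h

theorem prod_LT {n d : ℕ} {ι : Type*} (s : Finset ι) (p : ι → S n d)
    (hp : ∀ i ∈ s, p i ∈ LT n d 2) : ∏ i ∈ s, p i ∈ LT n d (s.card + 1) := by
  classical
  induction s using Finset.induction_on with
  | empty =>
    rw [Finset.prod_empty, Finset.card_empty]
    exact monomial_LT 0 1 (by rw [map_zero]; omega)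
  | insert a s ha ih =>
    rw [Finset.prod_insert ha, Finset.card_insert_of_notMem ha]
    have := mul_LT (hp a (Finset.mem_insert_self _ _))
      (ih (fun i hi => hp i (Finset.mem_insert_of_mem hi)))
    rw [show 1 + (s.card + 1) = s.card + 1 + 1 by ring] at this
    exact this

theorem prod_sub_LT {n d : ℕ} {ι : Type*} (s : Finset ι) (p q : ι → S n d)
    (hp : ∀ i ∈ s, p i ∈ LT n d 2) (hq : ∀ i ∈ s, q i ∈ LT n d 2)
    (hpq : ∀ i ∈ s, p i - q i ∈ LT n d 1) :
    ∏ i ∈ s, p i - ∏ i ∈ s, q i ∈ LT n d s.card := by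
  classical
  induction s using Finset.induction_on with
  | empty => simp
  | insert a s ha ih =>
    rw [Finset.prod_insert ha, Finset.prod_insert ha, Finset.card_insert_of_notMem ha]
    have h1 := mul_LT (hp a (Finset.mem_insert_self _ _))
      (ih (fun i hi => hp i (Finset.mem_insert_of_mem hi))
        (fun i hi => hq i (Finset.mem_insert_of_mem hi))
        (fun i hi => hpq i (Finset.mem_insert_of_mem hi)))
    have h2 := mul_LT (a := 0) (hpq a (Finset.mem_insert_self _ _))
      (prod_LT s q (fun i hi => hq i (Finset.mem_insert_of_mem hi)))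
    have h3 : p a * ∏ i ∈ s, p i - q a * ∏ i ∈ s, q i =
        p a * (∏ i ∈ s, p i - ∏ i ∈ s, q i) + (p a - q a) * ∏ i ∈ s, q i := by ring
    rw [h3]
    refine Submodule.add_mem _ ?_ ?_
    · rw [add_comm 1] at h1; exact h1
    · rw [zero_add] at h2; exact h2

/-- the element `∑ c_β q_β(z)` -/
noncomputable def lin {n d : ℕ} (q : Mon n d → MvPolynomial (Fin n) ℂ) : S n d :=
  ∑ β, X (Sum.inr β) * rename Sum.inl (q β)

theorem lin_term_supp {n d : ℕ} (β : Mon n d) (q : MvPolynomial (Fin n) ℂ)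
    (x : Var n d →₀ ℕ) (hx : x ∈ (X (Sum.inr β) * rename Sum.inl q : S n d).support) :
    ∃ γ ∈ q.support, x = Finsupp.single (Sum.inr β) 1 + γ.mapDomain Sum.inl := by
  classical
  obtain ⟨y, hy, z, hz, rfl⟩ := Finset.mem_add.1 (support_mul _ _ hx)
  rw [support_X, Finset.mem_singleton] at hy
  rw [support_rename_of_injective Sum.inl_injective, Finset.mem_image] at hz
  obtain ⟨γ, hγ, rfl⟩ := hz
  exact ⟨γ, hγ, by rw [hy]⟩

theorem W_term {n d : ℕ} (β : Mon n d) (γ : Fin n →₀ ℕ) :
    W n d (Finsupp.single (Sum.inr β) 1 + γ.mapDomain Sum.inl) =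
      ∑ j, if β = pure' n d j then 1 else 0 := by
  classical
  rw [W_apply]
  refine Finset.sum_congr rfl (fun j _ => ?_)
  rw [Finsupp.add_apply, Finsupp.single_apply, Finsupp.mapDomain_of_notMem_range, add_zero]
  · simp only [Sum.inr.injEq]
  · rintro ⟨y, hy⟩; exact Sum.inl_ne_inr hy

theorem lin_sub_mem {n d : ℕ} (hd : 0 < d) (q : Mon n d → MvPolynomial (Fin n) ℂ) :
    lin q - ∑ j, X (Sum.inr (pure' n d j)) * rename Sum.inl (q (pure' n d j)) ∈ LT n d 1 := by
  classical
  have h1 : ∑ j, (X (Sum.inr (pure' n d j)) * rename Sum.inl (q (pure' n d j)) : S n d) =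
      ∑ β ∈ Finset.univ.image (pure' n d), X (Sum.inr β) * rename Sum.inl (q β) := by
    rw [Finset.sum_image (fun i _ j _ h => pure_inj hd h)]
  rw [lin, h1, ← Finset.sum_sdiff (Finset.subset_univ (Finset.univ.image (pure' n d))),
    add_sub_cancel_right]
  refine Submodule.sum_mem _ (fun β hβ => ?_)
  rw [mem_LT]
  intro x hx
  obtain ⟨γ, -, rfl⟩ := lin_term_supp β _ x hx
  rw [W_term, Finset.sum_eq_zero, ]
  · exact Nat.one_pos
  · intro j _
    rw [if_neg]
    intro h
    rw [Finset.mem_sdiff] at hβ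
    exact hβ.2 (Finset.mem_image.2 ⟨j, Finset.mem_univ _, h.symm⟩)

theorem lin_homog {n d : ℕ} (q : Mon n d → MvPolynomial (Fin n) ℂ) (e : ℕ)
    (hq : ∀ β, (q β).IsHomogeneous e) : IsWeightedHomogeneous (wz n d) (lin q) e := by
  refine IsWeightedHomogeneous.sum _ _ _ (fun β _ => ?_)
  intro x hx
  obtain ⟨γ, hγ, rfl⟩ := lin_term_supp β _ x (mem_support_iff.2 hx)
  have h2 : γ.degree = e := by
    by_contra hne
    exact mem_support_iff.1 hγ ((hq β).coeff_eq_zero hne)
  rw [weight_wz, ← h2, Finsupp.degree_eq_sum]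
  refine Finset.sum_congr rfl (fun j _ => ?_)
  rw [Finsupp.add_apply, Finsupp.single_apply, if_neg (by simp), zero_add,
    Finsupp.mapDomain_apply Sum.inl_injective]

end Pool.Agent.W467.AF
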