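import Pool.Agent.W467.Gen

/-! The generic form, its partial derivatives and its Hessian: leading parts. -/

set_option autoImplicit false

namespace Pool.Agent.W467.AF

open MvPolynomial

variable (n d : ℕ)

/-- the generic form -/
noncomputable def gf : S n d := lin (fun β => monomial β.1 1)

/-- its partial derivatives -/
noncomputable def F (i : Fin n) : S n d := pderiv (Sum.inl i) (gf n d)

/-- its Hessian matrix -/
noncomputable def Hm : Matrix (Fin n) (Fin n) (S n d) :=
  Matrix.of fun i j => pderiv (Sum.inl i) (pderiv (Sum.inl j) (gf n d))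

/-- its Hessian determinant -/
noncomputable def H : S n d := (Hm n d).det

/-- the ideal generated by the partial derivatives -/
noncomputable def J : Ideal (S n d) := Ideal.span (Set.range (F n d))

variable {n d}

theorem pderiv_comm' {σ : Type*} (i j : σ) (p : MvPolynomial σ ℂ) :
    pderiv i (pderiv j p) = pderiv j (pderiv i p) := by
  classical
  induction p using MvPolynomial.induction_on with
  | C a => simp
  | add p q hp hq => rw [map_add, map_add, hp, hq, map_add, map_add]
  | mul_X p k hp =>
    rw [pderiv_mul, pderiv_mul, map_add, map_add, pderiv_mul, pderiv_mul, pderiv_mul, pderiv_mul, hp]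
    have h1 : ∀ a b : σ, pderiv a (pderiv b (X k : MvPolynomial σ ℂ)) = 0 := by
      intro a b
      rw [pderiv_X]
      by_cases h : b = k
      · subst h; simp
      · rw [Pi.single_eq_of_ne (Ne.symm h)]; simp
    rw [h1, h1]
    ring

theorem pderiv_lin (i : Fin n) (q : Mon n d → MvPolynomial (Fin n) ℂ) :
    pderiv (Sum.inl i) (lin q : S n d) = lin (fun β => pderiv i (q β)) := by
  simp only [lin, map_sum]
  refine Finset.sum_congr rfl (fun β _ => ?_)
  rw [pderiv_mul, pderiv_rename Sum.inl_injective, pderiv_X_of_ne (by simp), zero_mul, zero_add]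

theorem F_eq (i : Fin n) : F n d i = lin (fun β => pderiv i (monomial β.1 1)) := pderiv_lin i _

theorem Hm_eq (i j : Fin n) :
    Hm n d i j = lin (fun β => pderiv i (pderiv j (monomial β.1 1))) := by
  change pderiv (Sum.inl i) (F n d j) = _
  rw [F_eq, pderiv_lin]

theorem pderiv_homog {m : ℕ} {p : MvPolynomial (Fin n) ℂ} (hp : p.IsHomogeneous m) (i : Fin n) :
    (pderiv i p).IsHomogeneous (m - 1) := hp.pderiv

theorem F_homog (i : Fin n) : IsWeightedHomogeneous (wz n d) (F n d i) (d - 1) := by
  rw [F_eq]
  exact lin_homog _ _ (fun β => pderiv_homog (isHomogeneous_monomial _ β.2) i)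

theorem Hm_homog (i j : Fin n) : IsWeightedHomogeneous (wz n d) (Hm n d i j) (d - 2) := by
  rw [Hm_eq]
  exact lin_homog _ _ (fun β => pderiv_homog
    (pderiv_homog (isHomogeneous_monomial _ β.2) j) i)

theorem H_homog : IsWeightedHomogeneous (wz n d) (H n d) (n * (d - 2)) := by
  rw [H, Matrix.det_apply]
  refine IsWeightedHomogeneous.sum _ _ _ (fun σ _ => ?_)
  have h1 : IsWeightedHomogeneous (wz n d) (∏ i, Hm n d (σ i) i) (n * (d - 2)) := by
    have := IsWeightedHomogeneous.prod Finset.univ (fun i => Hm n d (σ i) i)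
      (fun _ => d - 2) (w := wz n d) (fun i _ => Hm_homog _ _)
    simpa using this
  exact (weightedHomogeneousSubmodule ℂ (wz n d) _).smul_of_tower_mem _ h1

/-- the exponent of `c_{d e_j} z_j ^ e` -/
noncomputable def me (n d : ℕ) (e : ℕ) (j : Fin n) : Var n d →₀ ℕ :=
  Finsupp.single (Sum.inr (pure' n d j)) 1 + Finsupp.single (Sum.inl j) e

theorem W_me (hd : 0 < d) (e : ℕ) (j : Fin n) : W n d (me n d e j) = 1 := by
  classical
  have h1 : me n d e j = Finsupp.single (Sum.inr (pure' n d j)) 1 +
      (Finsupp.single j e).mapDomain Sum.inl := by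
    rw [me, Finsupp.mapDomain_single]
  rw [h1, W_term, Finset.sum_eq_single j, if_pos rfl]
  · intro i _ hi
    rw [if_neg]
    intro h
    exact hi (pure_inj hd h).symm
  · simp

theorem top_F (hd : 2 ≤ d) (i : Fin n) :
    F n d i - monomial (me n d (d - 1) i) (d : ℂ) ∈ LT n d 1 := by
  classical
  have h1 := lin_sub_mem (n := n) (d := d) (by omega) (fun β => pderiv i (monomial β.1 1))
  rw [← F_eq, Finset.sum_eq_single i] at h1
  · convert h1 using 2
    simp only [pure', pderiv_monomial]
    rw [Finsupp.single_eq_same, ← Finsupp.single_tsub, one_mul, rename_monomial,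
      Finsupp.mapDomain_single, X, monomial_mul, one_mul]
    rfl
  · intro j _ hj
    simp only [pure', pderiv_monomial]
    rw [Finsupp.single_apply, if_neg hj]
    simp
  · simp

theorem top_Hm (hd : 2 ≤ d) (i j : Fin n) :
    Hm n d i j - (if i = j then monomial (me n d (d - 2) i) ((d * (d - 1) : ℕ) : ℂ) else 0)
      ∈ LT n d 1 := by
  classical
  have h1 := lin_sub_mem (n := n) (d := d) (by omega)
    (fun β => pderiv i (pderiv j (monomial β.1 1)))
  rw [← Hm_eq] at h1
  by_cases hij : i = j
  · subst hij
    rw [if_pos rfl]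
    rw [Finset.sum_eq_single i] at h1
    · convert h1 using 2
      simp only [pure', pderiv_monomial]
      rw [Finsupp.single_eq_same, ← Finsupp.single_tsub, one_mul, Finsupp.single_eq_same,
        ← Finsupp.single_tsub, rename_monomial,
        Finsupp.mapDomain_single, X, monomial_mul, one_mul]
      rw [me, show d - 2 = d - 1 - 1 by omega]
      push_cast
      rfl
    · intro j _ hj
      simp only [pure', pderiv_monomial]
      rw [Finsupp.single_apply, if_neg hj]
      simp
    · simp
  · rw [if_neg hij]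
    rw [Finset.sum_eq_zero] at h1
    · exact h1
    · intro k _
      simp only [pure', pderiv_monomial]
      by_cases hk : k = j
      · subst hk
        rw [Finsupp.single_eq_same, ← Finsupp.single_tsub, Finsupp.single_apply,
          if_neg (fun h => hij h.symm)]
        simp
      · rw [Finsupp.single_apply, if_neg hk]
        simp

theorem monomial_prod {σ : Type*} {ι : Type*} (s : Finset ι) (x : ι → σ →₀ ℕ) (a : ι → ℂ) :
    ∏ i ∈ s, (monomial (x i) (a i) : MvPolynomial σ ℂ) = monomial (∑ i ∈ s, x i) (∏ i ∈ s, a i) := by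
  classical
  induction s using Finset.induction_on with
  | empty => simp
  | insert b s hb ih => rw [Finset.prod_insert hb, Finset.prod_insert hb, Finset.sum_insert hb,
      ih, monomial_mul]

/-- the exponent of the leading monomial of the Hessian -/
noncomputable def eH (n d : ℕ) : Var n d →₀ ℕ := ∑ i, me n d (d - 2) i

/-- the leading coefficient of the Hessian -/
noncomputable def kH (n d : ℕ) : ℂ := ∏ _i : Fin n, ((d * (d - 1) : ℕ) : ℂ)

theorem kH_ne (hd : 2 ≤ d) : kH n d ≠ 0 := by
  rw [kH, Finset.prod_ne_zero_iff]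
  intro i _
  rw [Nat.cast_ne_zero]
  exact Nat.mul_ne_zero (by omega) (by omega)

theorem Hm_LT (hd : 2 ≤ d) (i j : Fin n) : Hm n d i j ∈ LT n d 2 := by
  have h1 := top_Hm hd i j
  have h2 : Hm n d i j = (Hm n d i j - (if i = j then monomial (me n d (d - 2) i)
      ((d * (d - 1) : ℕ) : ℂ) else 0)) + (if i = j then monomial (me n d (d - 2) i)
      ((d * (d - 1) : ℕ) : ℂ) else 0) := by ring
  rw [h2]
  refine Submodule.add_mem _ (LT_mono (by omega) h1) ?_
  split_ifs
  · exact monomial_LT _ _ (by rw [W_me (by omega)]; omega)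
  · exact Submodule.zero_mem _

theorem top_H (hd : 2 ≤ d) : H n d - monomial (eH n d) (kH n d) ∈ LT n d n := by
  classical
  rw [H, Matrix.det_apply, ← Finset.add_sum_erase _ _ (Finset.mem_univ (1 : Equiv.Perm (Fin n)))]
  have h1 : ∏ i, Hm n d ((1 : Equiv.Perm (Fin n)) i) i - monomial (eH n d) (kH n d) ∈
      LT n d n := by
    have := prod_sub_LT (n := n) (d := d) Finset.univ (fun i => Hm n d i i)
      (fun i => monomial (me n d (d - 2) i) ((d * (d - 1) : ℕ) : ℂ))
      (fun i _ => Hm_LT hd i i)
      (fun i _ => monomial_LT _ _ (by rw [W_me (by omega)]; omega))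
      (fun i _ => by have := top_Hm hd i i; rwa [if_pos rfl] at this)
    rw [monomial_prod, Finset.card_univ, Fintype.card_fin] at this
    exact this
  have h2 : ∑ σ ∈ Finset.univ.erase (1 : Equiv.Perm (Fin n)),
      Equiv.Perm.sign σ • ∏ i, Hm n d (σ i) i ∈ LT n d n := by
    refine Submodule.sum_mem _ (fun σ hσ => ?_)
    refine Submodule.smul_of_tower_mem _ _ ?_
    have hne : σ ≠ 1 := Finset.ne_of_mem_erase hσ
    obtain ⟨i, hi⟩ : ∃ i, σ i ≠ i := by
      by_contra hcon
      push Not at hcon
      exact hne (Equiv.ext hcon)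
    rw [← Finset.mul_prod_erase _ _ (Finset.mem_univ i)]
    have h3 := top_Hm hd (σ i) i
    rw [if_neg hi, sub_zero] at h3
    have h4 := prod_LT (n := n) (d := d) (Finset.univ.erase i) (fun j => Hm n d (σ j) j)
      (fun j _ => Hm_LT hd _ _)
    have h5 := mul_LT (a := 0) h3 h4
    rw [Finset.card_erase_of_mem (Finset.mem_univ i), Finset.card_univ, Fintype.card_fin,
      zero_add] at h5
    have : n - 1 + 1 = n := by
      have := i.2
      omega
    rw [this] at h5
    exact h5
  rw [Equiv.Perm.sign_one, one_smul, add_sub_right_comm]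
  exact Submodule.add_mem _ h1 h2

theorem euler0 {n d : ℕ} (p : S n d) (e : ℕ) (hp : IsWeightedHomogeneous (wz n d) p e) :
    ∑ j, X (Sum.inl j) * pderiv (Sum.inl j) p = e • p := by
  have h1 := hp.sum_weight_X_mul_pderiv
  rw [Fintype.sum_sum_type] at h1
  rw [← h1]
  have h2 : ∀ x : Mon n d, wz n d (Sum.inr x) • (X (Sum.inr x) * pderiv (Sum.inr x) p) = 0 := by
    intro x
    exact zero_smul ℕ _
  rw [Finset.sum_congr rfl (fun x _ => h2 x), Finset.sum_const_zero, add_zero]
  refine Finset.sum_congr rfl (fun x _ => ?_)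
  exact (one_smul ℕ _).symm

theorem Hm_comm (i j : Fin n) : Hm n d i j = pderiv (Sum.inl j) (F n d i) := pderiv_comm' _ _ _

/-- Euler: `(Hessian matrix) z = (d - 1) ∇f` -/
theorem euler (i : Fin n) : ∑ j, Hm n d i j * X (Sum.inl j) = (d - 1) • F n d i := by
  rw [← euler0 (F n d i) (d - 1) (F_homog i)]
  refine Finset.sum_congr rfl (fun j _ => ?_)
  rw [mul_comm, Hm_comm]

theorem F_mem (i : Fin n) : F n d i ∈ J n d := Ideal.subset_span ⟨i, rfl⟩

theorem z_mul_H (i : Fin n) : X (Sum.inl i) * H n d ∈ J n d := by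
  have h1 := congrArg (fun M => (M.mulVec (fun j => (X (Sum.inl j) : S n d))) i)
    (Matrix.adjugate_mul (Hm n d))
  simp only [← Matrix.mulVec_mulVec] at h1
  have h2 : (Hm n d).mulVec (fun j => (X (Sum.inl j) : S n d)) =
      fun i => (d - 1) • F n d i := by
    funext i
    exact euler i
  rw [h2, Matrix.smul_mulVec, Matrix.one_mulVec] at h1
  simp only [Pi.smul_apply, smul_eq_mul] at h1
  rw [H, mul_comm, ← h1, Matrix.mulVec, dotProduct]
  refine Ideal.sum_mem _ (fun j _ => Ideal.mul_mem_left _ _ ?_)
  exact nsmul_mem (F_mem j) _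

end Pool.Agent.W467.AF
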