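import Mathlib

/-! Polynomials whose leading monomials (for a weight filtration) are pairwise coprime: the
leading monomials of the elements of the ideal they generate. -/

set_option autoImplicit false

namespace Pool.Agent.W467

open MvPolynomial

/-- a rewriting system `monomial (m j) ⟶ G j` with pairwise coprime `m j` and tails of smaller
weight -/
structure RW (τ : Type*) (k : Type*) [Field k] (ι : Type*) where
  W : (τ →₀ ℕ) →+ ℕ
  m : ι → (τ →₀ ℕ)
  G : ι → MvPolynomial τ k
  cop : ∀ i j, i ≠ j → ∀ t, m i t = 0 ∨ m j t = 0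
  low : ∀ j, ∀ γ ∈ (G j).support, W γ < W (m j)

namespace RW

variable {τ : Type*} {k : Type*} [Field k] {ι : Type*} (R : RW τ k ι)

theorem W_mono {x y : τ →₀ ℕ} (h : x ≤ y) : R.W x ≤ R.W y := by
  obtain ⟨z, rfl⟩ := exists_add_of_le h
  rw [map_add]; omega

theorem step_lt {x : τ →₀ ℕ} {j : ι} (h : R.m j ≤ x) {γ : τ →₀ ℕ} (hγ : γ ∈ (R.G j).support) :
    R.W (x - R.m j + γ) < R.W x := by
  have h1 : R.W x = R.W (x - R.m j) + R.W (R.m j) := by
    rw [← map_add, tsub_add_cancel_of_le h]
  have h2 := R.low j γ hγ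
  rw [map_add]; omega

open Classical in
/-- normal form of a monomial -/
noncomputable def N (x : τ →₀ ℕ) : MvPolynomial τ k :=
  if h : ∃ j, R.m j ≤ x then
    ∑ γ : (R.G h.choose).support, coeff γ.1 (R.G h.choose) • N (x - R.m h.choose + γ.1)
  else monomial x 1
termination_by R.W x
decreasing_by exact R.step_lt h.choose_spec γ.2

/-- normal form, extended linearly -/
noncomputable def NL : MvPolynomial τ k →ₗ[k] MvPolynomial τ k :=
  (basisMonomials τ k).constr k R.N

theorem NL_monomial (x : τ →₀ ℕ) (a : k) : R.NL (monomial x a) = a • R.N x := by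
  have h1 : (monomial x a : MvPolynomial τ k) = a • (basisMonomials τ k) x := by
    rw [coe_basisMonomials, smul_monomial, smul_eq_mul, mul_one]
  rw [h1, map_smul, NL, Module.Basis.constr_basis]

theorem NL_eq (p : MvPolynomial τ k) : R.NL p = ∑ x ∈ p.support, coeff x p • R.N x := by
  conv_lhs => rw [← support_sum_monomial_coeff p]
  rw [map_sum]
  exact Finset.sum_congr rfl (fun x _ => R.NL_monomial x _)

theorem NL_monomial_mul (x : τ →₀ ℕ) (p : MvPolynomial τ k) :
    R.NL (monomial x 1 * p) = ∑ γ ∈ p.support, coeff γ p • R.N (x + γ) := by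
  conv_lhs => rw [← support_sum_monomial_coeff p]
  rw [Finset.mul_sum, map_sum]
  refine Finset.sum_congr rfl (fun γ _ => ?_)
  rw [monomial_mul, one_mul, R.NL_monomial]

theorem N_of_not {x : τ →₀ ℕ} (h : ¬ ∃ j, R.m j ≤ x) : R.N x = monomial x 1 := by
  rw [N, dif_neg h]

theorem N_of_ex {x : τ →₀ ℕ} (h : ∃ j, R.m j ≤ x) :
    ∃ j, ∃ y, x = y + R.m j ∧ R.N x = R.NL (monomial y 1 * R.G j) := by
  refine ⟨h.choose, x - R.m h.choose, (tsub_add_cancel_of_le h.choose_spec).symm, ?_⟩
  rw [N, dif_pos h, R.NL_monomial_mul]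
  rw [Finset.sum_coe_sort (R.G h.choose).support
    (fun γ => coeff γ (R.G h.choose) • R.N (x - R.m h.choose + γ))]

theorem NL_mono_sum (y : τ →₀ ℕ) (p q : MvPolynomial τ k) :
    R.NL (monomial y 1 * p * q) =
      ∑ γ ∈ p.support, coeff γ p • R.NL (monomial (y + γ) 1 * q) := by
  have h1 : monomial y 1 * p * q =
      ∑ γ ∈ p.support, coeff γ p • (monomial (y + γ) (1 : k) * q) := by
    conv_lhs => rw [← support_sum_monomial_coeff p]
    rw [Finset.mul_sum, Finset.sum_mul]
    refine Finset.sum_congr rfl (fun γ _ => ?_)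
    rw [monomial_mul, one_mul, ← smul_mul_assoc, smul_monomial, smul_eq_mul, mul_one]
  rw [h1, map_sum]
  exact Finset.sum_congr rfl (fun γ _ => by rw [map_smul])

theorem key : ∀ (D : ℕ) (x : τ →₀ ℕ) (j : ι), R.W (x + R.m j) = D →
    R.N (x + R.m j) = R.NL (monomial x 1 * R.G j) := by
  intro D
  induction D using Nat.strong_induction_on with
  | _ D ih =>
    intro x j hD
    obtain ⟨i, y', hy', hN⟩ := R.N_of_ex (x := x + R.m j) ⟨j, le_add_self⟩
    by_cases hij : i = j
    · subst hij
      rw [hN, add_right_cancel hy']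
    -- `m i ≤ x`
    have hix : R.m i ≤ x := by
      intro t
      rcases R.cop i j hij t with h | h
      · rw [h]; exact Nat.zero_le _
      · have h2 := DFunLike.congr_fun hy' t
        simp only [Finsupp.add_apply] at h2
        omega
    obtain ⟨y, rfl⟩ : ∃ y, x = y + R.m i := ⟨x - R.m i, (tsub_add_cancel_of_le hix).symm⟩
    have hy : y' = y + R.m j := by
      apply add_right_cancel (b := R.m i)
      rw [← hy']; abel
    subst hy
    have hW : R.W (y + R.m i + R.m j) = R.W y + R.W (R.m i) + R.W (R.m j) := by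
      rw [map_add, map_add]
    have e1 : R.NL (monomial (y + R.m j) 1 * R.G i) =
        R.NL (monomial y 1 * R.G i * R.G j) := by
      rw [R.NL_monomial_mul, R.NL_mono_sum]
      refine Finset.sum_congr rfl (fun γ hγ => ?_)
      have h3 : y + R.m j + γ = y + γ + R.m j := by abel
      rw [h3]
      congr 1
      refine ih _ ?_ (y + γ) j rfl
      have := R.low i γ hγ
      rw [← hD, hW, map_add, map_add]
      omega
    have e2 : R.NL (monomial (y + R.m i) 1 * R.G j) =
        R.NL (monomial y 1 * R.G j * R.G i) := by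
      rw [R.NL_monomial_mul, R.NL_mono_sum]
      refine Finset.sum_congr rfl (fun γ hγ => ?_)
      have h3 : y + R.m i + γ = y + γ + R.m i := by abel
      rw [h3]
      congr 1
      refine ih _ ?_ (y + γ) i rfl
      have := R.low j γ hγ
      rw [← hD, hW, map_add, map_add]
      omega
    rw [hN, e1, e2]
    congr 1
    ring

theorem NL_gen (j : ι) (p : MvPolynomial τ k) :
    R.NL (p * (monomial (R.m j) 1 - R.G j)) = 0 := by
  have h1 : p * (monomial (R.m j) 1 - R.G j) =
      ∑ x ∈ p.support, coeff x p • (monomial (x + R.m j) (1 : k) - monomial x 1 * R.G j) := by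
    conv_lhs => rw [← support_sum_monomial_coeff p]
    rw [Finset.sum_mul]
    refine Finset.sum_congr rfl (fun x _ => ?_)
    have : (monomial x (coeff x p) : MvPolynomial τ k) = coeff x p • monomial x (1 : k) := by
      rw [smul_monomial, smul_eq_mul, mul_one]
    rw [this, smul_mul_assoc, mul_sub, monomial_mul, one_mul]
  rw [h1, map_sum]
  refine Finset.sum_eq_zero (fun x _ => ?_)
  rw [map_smul, map_sub, R.NL_monomial, one_smul, R.key _ x j rfl, sub_self, smul_zero]

/-- the ideal generated by the `monomial (m j) - G j` -/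
noncomputable def I : Ideal (MvPolynomial τ k) := Ideal.span (Set.range (fun j => monomial (R.m j) 1 - R.G j))

theorem NL_ideal' {h : MvPolynomial τ k} (hh : h ∈ R.I) : ∀ a, R.NL (a * h) = 0 := by
  induction hh using Submodule.span_induction with
  | mem x hx =>
    obtain ⟨j, rfl⟩ := hx
    intro a
    exact R.NL_gen j a
  | zero => intro a; rw [mul_zero, map_zero]
  | add x y _ _ hx hy => intro a; rw [mul_add, map_add, hx, hy, add_zero]
  | smul b x hx ih =>
    intro a
    rw [smul_eq_mul, ← mul_assoc]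
    exact ih _

theorem NL_ideal {h : MvPolynomial τ k} (hh : h ∈ R.I) : R.NL h = 0 := by
  have := R.NL_ideal' hh 1
  rwa [one_mul] at this

theorem N_supp : ∀ (D : ℕ) (x : τ →₀ ℕ), R.W x = D → (∃ j, R.m j ≤ x) →
    ∀ μ ∈ (R.N x).support, R.W μ < R.W x := by
  intro D
  induction D using Nat.strong_induction_on with
  | _ D ih =>
    intro x hD hx μ hμ
    obtain ⟨j, y, hy, hN⟩ := R.N_of_ex hx
    rw [hN, R.NL_monomial_mul] at hμ
    classical
    obtain ⟨γ, hγ, hμγ⟩ := Finset.mem_biUnion.1 (support_sum hμ)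
    have hμ2 : μ ∈ (R.N (y + γ)).support := support_smul hμγ
    have hlt : R.W (y + γ) < R.W x := by
      have := R.low j γ hγ
      rw [hy, map_add, map_add]; omega
    by_cases hex : ∃ i, R.m i ≤ y + γ
    · exact (ih _ (hD ▸ hlt) (y + γ) rfl hex μ hμ2).trans hlt
    · rw [R.N_of_not hex] at hμ2
      have := support_monomial_subset hμ2
      rw [Finset.mem_singleton] at this
      rw [this]
      exact hlt

/-- the top weight part of an element of the ideal is divisible by some `m j`, monomial by
monomial -/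
theorem init {h : MvPolynomial τ k} (hh : h ∈ R.I) (D : ℕ) (hD : ∀ μ ∈ h.support, R.W μ ≤ D)
    (μ : τ →₀ ℕ) (hμ : μ ∈ h.support) (hμD : R.W μ = D) : ∃ j, R.m j ≤ μ := by
  classical
  by_contra hcon
  have h0 := R.NL_ideal hh
  rw [R.NL_eq] at h0
  have h1 := congrArg (coeff μ) h0
  rw [coeff_sum, coeff_zero, Finset.sum_eq_single μ] at h1
  · rw [coeff_smul, R.N_of_not hcon, coeff_monomial, if_pos rfl, smul_eq_mul, mul_one] at h1
    exact (mem_support_iff.1 hμ) h1
  · intro x hx hxμ
    rw [coeff_smul]
    by_cases hex : ∃ i, R.m i ≤ x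
    · have : μ ∉ (R.N x).support := by
        intro hcon2
        have h3 := R.N_supp _ x rfl hex μ hcon2
        have h4 := hD x hx
        omega
      rw [notMem_support_iff.1 this, smul_zero]
    · rw [R.N_of_not hex, coeff_monomial, if_neg hxμ, smul_zero]
  · intro hcon2
    exact absurd hμ hcon2

end RW

end Pool.Agent.W467
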