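import Pool.Agent.W467.Minor

/-! The associated form and the discriminant: `Δ Φ` is a polynomial map. -/

set_option autoImplicit false

namespace Pool.Agent.W467.AF

open MvPolynomial

variable {n d : ℕ}

/-- decomposition along the monomials in `z` -/
theorem decomp {m : ℕ} (G : S n d) (hG : IsWeightedHomogeneous (wz n d) G m) :
    ∃ h : Mon n m → MvPolynomial (Mon n d) ℂ,
      G = ∑ α, rename Sum.inr (h α) * rename Sum.inl (monomial α.1 1) := by
  classical
  let xl : (Var n d →₀ ℕ) → (Fin n →₀ ℕ) := fun x => x.comapDomain Sum.inl Sum.inl_injective.injOn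
  let xr : (Var n d →₀ ℕ) → (Mon n d →₀ ℕ) := fun x =>
    x.comapDomain Sum.inr Sum.inr_injective.injOn
  have hx : ∀ x : Var n d →₀ ℕ, (xr x).mapDomain Sum.inr + (xl x).mapDomain Sum.inl = x := by
    intro x
    ext t
    rcases t with k | β
    · rw [Finsupp.add_apply, Finsupp.mapDomain_of_notMem_range, zero_add,
        Finsupp.mapDomain_apply Sum.inl_injective]
      · rfl
      · rintro ⟨y, hy⟩; exact Sum.inr_ne_inl hy
    · rw [Finsupp.add_apply, Finsupp.mapDomain_apply Sum.inr_injective,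
        Finsupp.mapDomain_of_notMem_range, add_zero]
      · rfl
      · rintro ⟨y, hy⟩; exact Sum.inl_ne_inr hy
  have hdeg : ∀ x ∈ G.support, (xl x).degree = m := by
    intro x hxs
    have h1 := hG (mem_support_iff.1 hxs)
    rw [weight_wz] at h1
    rw [← h1, Finsupp.degree_eq_sum]
    rfl
  refine ⟨fun α => ∑ x ∈ G.support, if xl x = α.1 then monomial (xr x) (coeff x G) else 0, ?_⟩
  simp only [map_sum, Finset.sum_mul]
  rw [Finset.sum_comm]
  conv_lhs => rw [← support_sum_monomial_coeff G]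
  refine Finset.sum_congr rfl (fun x hxs => ?_)
  rw [Finset.sum_eq_single (⟨xl x, hdeg x hxs⟩ : Mon n m)]
  · rw [if_pos rfl, rename_monomial, rename_monomial, monomial_mul, mul_one, hx]
  · intro α _ hα
    rw [if_neg (fun h => hα (Subtype.ext h.symm)), map_zero, zero_mul]
  · intro h; exact absurd (Finset.mem_univ _) h

theorem X_pow_eq (i : Fin n) (N : ℕ) :
    (X (Sum.inl i) ^ N : S n d) = rename Sum.inl (monomial (Finsupp.single i N) 1) := by
  rw [rename_monomial, Finsupp.mapDomain_single, X_pow_eq_monomial]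

theorem hess_homog (f : MvPolynomial (Fin n) ℂ) (hf : f.IsHomogeneous d) :
    (hess f).IsHomogeneous (n * (d - 2)) := by
  rw [hess, Matrix.det_apply]
  refine IsHomogeneous.sum _ _ _ (fun σ _ => ?_)
  have h1 : (∏ i, (Matrix.of fun i j => pderiv i (pderiv j f) : Matrix (Fin n) (Fin n) _) (σ i) i :
      MvPolynomial (Fin n) ℂ).IsHomogeneous (n * (d - 2)) := by
    have := IsHomogeneous.prod Finset.univ (fun i => pderiv (σ i) (pderiv i f))
      (fun _ => d - 2) (fun i _ => (hf.pderiv (i := i)).pderiv (i := σ i))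
    simpa using this
  rw [← mem_homogeneousSubmodule] at h1 ⊢
  exact (homogeneousSubmodule (Fin n) ℂ _).smul_of_tower_mem _ h1

/-- for a nondegenerate form, a power of each variable times some `b(c)` with `b(f) ≠ 0` lies in
`J` -/
theorem exists_b (f : MvPolynomial (Fin n) ℂ) (hf : f.IsHomogeneous d) (hnd : ¬ Degen f) :
    ∃ b : MvPolynomial (Mon n d) ℂ, eval (coords n d f) b ≠ 0 ∧
      ∃ N, ∀ i : Fin n, X (Sum.inl i) ^ N * rename Sum.inr b ∈ J n d := by
  obtain ⟨N, hN, hall⟩ := exists_degree (d := d) f hnd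
  obtain ⟨b, hb, hbJ⟩ := minor f hf N (by omega) hall
  refine ⟨b, hb, N, fun i => ?_⟩
  rw [X_pow_eq, mul_comm]
  exact hbJ ⟨Finsupp.single i N, by rw [Finsupp.degree_single]⟩

theorem vanDeg_of_mem (b : MvPolynomial (Mon n d) ℂ)
    (h : ∃ N, ∀ i : Fin n, X (Sum.inl i) ^ N * rename Sum.inr b ∈ J n d) : VanDeg b := by
  intro f hf hdeg
  obtain ⟨z, hz, hz0⟩ := hdeg
  obtain ⟨N, hN⟩ := h
  obtain ⟨j, hj⟩ := Function.ne_iff.1 hz
  have h1 := ev_J f hf (hN j)
  have h2 : jac f ≤ RingHom.ker (eval z) := by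
    refine Ideal.span_le.2 ?_
    rintro _ ⟨i, rfl⟩
    exact hz0 i
  have h3 := h2 h1
  rw [RingHom.mem_ker, map_mul, ev_rename_inr, map_pow, ev, aeval_X, Sum.elim_inl, map_mul,
    map_pow, eval_X, eval_C] at h3
  rcases mul_eq_zero.1 h3 with h4 | h4
  · exact absurd (eq_zero_of_pow_eq_zero h4) hj
  · exact h4

/-- every form of degree `n (d - 2)` is a multiple of the Hessian modulo the partials -/
theorem exists_c (hd : 2 ≤ d) (f : MvPolynomial (Fin n) ℂ) (hf : f.IsHomogeneous d)
    (hnd : ¬ Degen f) (q : MvPolynomial (Fin n) ℂ) (hq : q.IsHomogeneous (n * (d - 2))) :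
    ∃ c : ℂ, q - C c * hess f ∈ jac f := by
  obtain ⟨b, hb, N, hN⟩ := exists_b f hf hnd
  obtain ⟨b', hb'⟩ := claim3 hd b (fun i => ⟨N, hN i⟩) q hq
  have h1 := ev_J f hf hb'
  rw [map_sub, map_mul, map_mul, ev_rename_inr, ev_rename_inr, ev_rename_inl, ev_H f hf] at h1
  refine ⟨(eval (coords n d f) b)⁻¹ * eval (coords n d f) b', ?_⟩
  have h2 : q - C ((eval (coords n d f) b)⁻¹ * eval (coords n d f) b') * hess f =
      C ((eval (coords n d f) b)⁻¹) *
        (C (eval (coords n d f) b) * q - C (eval (coords n d f) b') * hess f) := by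
    rw [mul_sub, ← mul_assoc, ← C_mul, inv_mul_cancel₀ hb, C_1, one_mul, ← mul_assoc, ← C_mul]
  rw [h2]
  exact Ideal.mul_mem_left _ _ h1

/-- the Hessian of a nondegenerate form is not in the ideal of the partials -/
theorem hess_notMem (hn : 2 ≤ n) (hd : 3 ≤ d) (f : MvPolynomial (Fin n) ℂ)
    (hf : f.IsHomogeneous d) (hnd : ¬ Degen f) : hess f ∉ jac f := by
  intro hmem
  obtain ⟨b, hb, hbJ⟩ := minor f hf (n * (d - 2)) (by
      have := Nat.mul_le_mul_right (d - 2) hn
      omega) (fun α => by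
    obtain ⟨c, hc⟩ := exists_c (by omega) f hf hnd _ (isHomogeneous_monomial (1 : ℂ) α.2)
    have h1 := Ideal.add_mem _ hc (Ideal.mul_mem_left _ (C c) hmem)
    rwa [sub_add_cancel] at h1)
  have hb0 : b ≠ 0 := by
    rintro rfl
    exact hb (map_zero _)
  apply mul_H_notMem (by omega : 2 ≤ d) b hb0
  obtain ⟨h, hh⟩ := decomp (H n d) (H_homog (n := n) (d := d))
  rw [hh, Finset.mul_sum]
  refine Ideal.sum_mem _ (fun α _ => ?_)
  have h1 : (rename Sum.inr b * (rename Sum.inr (h α) * rename Sum.inl (monomial α.1 1)) : S n d) =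
      rename Sum.inr (h α) * (rename Sum.inr b * rename Sum.inl (monomial α.1 1)) := by ring
  rw [h1]
  exact Ideal.mul_mem_left _ _ (hbJ α)

theorem c_unique (hn : 2 ≤ n) (hd : 3 ≤ d) (f : MvPolynomial (Fin n) ℂ)
    (hf : f.IsHomogeneous d) (hnd : ¬ Degen f) (q : MvPolynomial (Fin n) ℂ) (c c' : ℂ)
    (h : q - C c * hess f ∈ jac f) (h' : q - C c' * hess f ∈ jac f) : c = c' := by
  by_contra hne
  apply hess_notMem hn hd f hf hnd
  have h1 := Ideal.sub_mem _ h' h
  have h2 : hess f = C ((c - c')⁻¹) * (q - C c' * hess f - (q - C c * hess f)) := by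
    have h3 : q - C c' * hess f - (q - C c * hess f) = C (c - c') * hess f := by
      rw [C_sub]; ring
    rw [h3, ← mul_assoc, ← C_mul, inv_mul_cancel₀ (sub_ne_zero.2 hne), C_1, one_mul]
  rw [h2]
  exact Ideal.mul_mem_left _ _ h1

/-- the numerator polynomials -/
theorem exists_P (hd : 2 ≤ d) (Δ : MvPolynomial (Mon n d) ℂ) (hΔ : VanDeg Δ) :
    ∃ P : Mon n (n * (d - 2)) → MvPolynomial (Mon n d) ℂ,
      ∀ α, rename Sum.inr Δ * rename Sum.inl (monomial α.1 1) - rename Sum.inr (P α) * H n d
        ∈ J n d := by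
  have h1 : ∀ α : Mon n (n * (d - 2)), ∃ b : MvPolynomial (Mon n d) ℂ,
      rename Sum.inr Δ * rename Sum.inl (monomial α.1 1) - rename Sum.inr b * H n d ∈ J n d :=
    fun α => claim3 hd Δ (fun i => ⟨_, pow_mul_mem hd i Δ hΔ⟩) _ (isHomogeneous_monomial 1 α.2)
  choose P hP using h1
  exact ⟨P, hP⟩

theorem P_spec (f : MvPolynomial (Fin n) ℂ) (hf : f.IsHomogeneous d)
    (Δ p : MvPolynomial (Mon n d) ℂ) (q : MvPolynomial (Fin n) ℂ)
    (h : rename Sum.inr Δ * rename Sum.inl q - rename Sum.inr p * H n d ∈ J n d) :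
    C (eval (coords n d f) Δ) * q - C (eval (coords n d f) p) * hess f ∈ jac f := by
  have h1 := ev_J f hf h
  rwa [map_sub, map_mul, map_mul, ev_rename_inr, ev_rename_inr, ev_rename_inl, ev_H f hf] at h1

/-- existence of the discriminant -/
theorem exists_disc (hn : 2 ≤ n) (hd : 3 ≤ d) : ∃ Δ : MvPolynomial (Mon n d) ℂ,
    Irreducible Δ ∧ ∀ f : MvPolynomial (Fin n) ℂ, f.IsHomogeneous d →
      (eval (coords n d f) Δ = 0 ↔ Degen f) := by
  classical
  have hd2 : 2 ≤ d := by omega
  let i0 : Fin n := ⟨0, by omega⟩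
  let P : Ideal (MvPolynomial (Mon n d) ℂ) := RingHom.ker (Th (by omega : 1 ≤ d) i0)
  have hP : P.IsPrime := RingHom.ker_isPrime _
  have hPmem : ∀ a, a ∈ P ↔ VanDeg a := fun a => by
    rw [vanDeg_iff hd2 i0]; exact RingHom.mem_ker
  -- the Fermat form
  let fF : MvPolynomial (Fin n) ℂ := ∑ i, X i ^ d
  have hfF : fF.IsHomogeneous d := IsHomogeneous.sum _ _ _ (fun i _ => isHomogeneous_X_pow i d)
  have hfFnd : ¬ Degen fF := by
    rintro ⟨z, hz, hz0⟩
    apply hz
    funext j
    have h1 := hz0 j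
    have h2 : eval z (pderiv j fF) = d * z j ^ (d - 1) := by
      simp only [fF, map_sum, pderiv_pow, pderiv_X]
      rw [Finset.sum_eq_single j]
      · simp
      · intro k _ hk
        rw [Pi.single_eq_of_ne hk]; simp
      · simp
    rw [h2] at h1
    rcases mul_eq_zero.1 h1 with h | h
    · exact absurd h (Nat.cast_ne_zero.2 (by omega))
    · exact eq_zero_of_pow_eq_zero h
  have hPne : P ≠ ⊥ := by
    obtain ⟨b, hb, hbN⟩ := exists_b fF hfF hfFnd
    intro h
    have h1 : b ∈ P := (hPmem b).2 (vanDeg_of_mem b hbN)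
    rw [h, Ideal.mem_bot] at h1
    rw [h1, map_zero] at hb
    exact hb rfl
  obtain ⟨a, haP, ha⟩ := hP.exists_mem_prime_of_ne_bot hPne
  -- `a` divides every element of `P`
  have hdvd : ∀ b ∈ P, a ∣ b := by
    intro b hbP
    by_contra hab
    obtain ⟨A, hA⟩ := exists_P hd2 a ((hPmem a).1 haP)
    obtain ⟨B, hB⟩ := exists_P hd2 b ((hPmem b).1 hbP)
    have h1 : ∀ α, a * B α = b * A α := by
      intro α
      by_contra hne
      apply mul_H_notMem hd2 (a * B α - b * A α) (sub_ne_zero.2 hne)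
      have h2 : (rename Sum.inr (a * B α - b * A α) * H n d : S n d) =
          rename Sum.inr b * (rename Sum.inr a * rename Sum.inl (monomial α.1 1) -
            rename Sum.inr (A α) * H n d) -
          rename Sum.inr a * (rename Sum.inr b * rename Sum.inl (monomial α.1 1) -
            rename Sum.inr (B α) * H n d) := by
        rw [map_sub, map_mul, map_mul]; ring
      rw [h2]
      exact Ideal.sub_mem _ (Ideal.mul_mem_left _ _ (hA α)) (Ideal.mul_mem_left _ _ (hB α))
    have h2 : ∀ α, ∃ e, A α = a * e := by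
      intro α
      rcases ha.dvd_or_dvd (⟨B α, (h1 α).symm⟩ : a ∣ b * A α) with h | h
      · exact absurd h hab
      · exact h
    choose e he using h2
    obtain ⟨h, hh⟩ := decomp (H n d) (H_homog (n := n) (d := d))
    have h3 : rename Sum.inr (a * (1 - ∑ α, h α * e α)) * H n d ∈ J n d := by
      have h4 : (rename Sum.inr (a * (1 - ∑ α, h α * e α)) * H n d : S n d) =
          ∑ α, rename Sum.inr (h α) * (rename Sum.inr a * rename Sum.inl (monomial α.1 1) -
            rename Sum.inr (A α) * H n d) := by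
        have h5 : (rename Sum.inr (a * (1 - ∑ α, h α * e α)) * H n d : S n d) =
            rename Sum.inr a * H n d -
              (∑ α, rename Sum.inr (h α) * (rename Sum.inr (A α) * H n d)) := by
          simp only [he, map_mul, map_sub, map_one, map_sum]
          rw [mul_sub, sub_mul, mul_one, Finset.mul_sum, Finset.sum_mul]
          congr 1
          refine Finset.sum_congr rfl (fun α _ => ?_)
          ring
        rw [h5]
        conv_lhs => enter [1]; rw [hh, Finset.mul_sum]
        rw [← Finset.sum_sub_distrib]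
        refine Finset.sum_congr rfl (fun α _ => ?_)
        ring
      rw [h4]
      exact Ideal.sum_mem _ (fun α _ => Ideal.mul_mem_left _ _ (hA α))
    have h4 : a * (1 - ∑ α, h α * e α) = 0 := by
      by_contra hne
      exact mul_H_notMem hd2 _ hne h3
    have h5 : (1 : MvPolynomial (Mon n d) ℂ) = ∑ α, h α * e α := by
      rcases mul_eq_zero.1 h4 with h | h
      · exact absurd h ha.ne_zero
      · exact sub_eq_zero.1 h
    -- specialise at the zero form
    have h6 : ∀ α, eval (coords n d (0 : MvPolynomial (Fin n) ℂ)) (h α) = 0 := by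
      have h7 := congrArg (ev (0 : MvPolynomial (Fin n) ℂ)) hh
      rw [ev_H 0 (isHomogeneous_zero _ _ _), map_sum] at h7
      have h8 : hess (0 : MvPolynomial (Fin n) ℂ) = 0 := by
        have : Nonempty (Fin n) := ⟨i0⟩
        rw [hess]
        have h9 : (Matrix.of fun i j => pderiv i (pderiv j (0 : MvPolynomial (Fin n) ℂ))) = 0 := by
          ext i j : 1
          simp
        rw [h9, Matrix.det_zero]
      rw [h8] at h7
      intro α
      have h9 := congrArg (coeff α.1) h7
      rw [coeff_zero, coeff_sum, Finset.sum_eq_single α] at h9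
      · rw [map_mul, ev_rename_inr, ev_rename_inl, coeff_C_mul, coeff_monomial, if_pos rfl,
          mul_one] at h9
        exact h9.symm
      · intro γ _ hγ
        rw [map_mul, ev_rename_inr, ev_rename_inl, coeff_C_mul, coeff_monomial,
          if_neg (fun h => hγ (Subtype.ext h)), mul_zero]
      · intro h; exact absurd (Finset.mem_univ _) h
    have h7 := congrArg (eval (coords n d (0 : MvPolynomial (Fin n) ℂ))) h5
    rw [map_one, map_sum, Finset.sum_eq_zero] at h7
    · exact one_ne_zero h7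
    · intro α _
      rw [map_mul, h6, zero_mul]
  refine ⟨a, ha.irreducible, fun f hf => ⟨fun h => ?_, fun h => (hPmem a).1 haP f hf h⟩⟩
  by_contra hnd
  obtain ⟨b, hb, hbN⟩ := exists_b f hf hnd
  obtain ⟨c, hc⟩ := hdvd b ((hPmem b).2 (vanDeg_of_mem b hbN))
  rw [hc, map_mul, h, zero_mul] at hb
  exact hb rfl

end Pool.Agent.W467.AF
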