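import Pool.Agent.W467.Theta

/-! From polynomials vanishing on degenerate forms to inertia forms, and back. -/

set_option autoImplicit false

namespace Pool.Agent.W467.AF

open MvPolynomial

variable {n d : ℕ}

theorem gf_mem (hd : 2 ≤ d) : gf n d ∈ J n d := by
  have h1 := euler0 (gf n d) d (lin_homog _ _ (fun β => isHomogeneous_monomial _ β.2))
  have hd0 : (d : ℂ) ≠ 0 := Nat.cast_ne_zero.2 (by omega)
  have h2 : gf n d = C ((d : ℂ)⁻¹) * ∑ j, X (Sum.inl j) * pderiv (Sum.inl j) (gf n d) := by
    rw [h1, nsmul_eq_mul, ← mul_assoc, ← C_eq_coe_nat, ← C_mul, inv_mul_cancel₀ hd0, C_1, one_mul]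
  rw [h2]
  exact Ideal.mul_mem_left _ _ (Ideal.sum_mem _ (fun j _ => Ideal.mul_mem_left _ _ (F_mem j)))

theorem aeval_scale {σ : Type*} [Fintype σ] {T : Type*} [CommRing T] [Algebra ℂ T] {E : ℕ}
    {a : MvPolynomial σ ℂ} (ha : a.IsHomogeneous E) (w : T) (g : σ → T) :
    aeval (fun β => w * g β) a = w ^ E * aeval g a := by
  rw [aeval_def, aeval_def, eval₂_eq', eval₂_eq', Finset.mul_sum]
  refine Finset.sum_congr rfl (fun x hx => ?_)
  have hx2 : x.degree = E := by
    by_contra hne
    exact mem_support_iff.1 hx (ha.coeff_eq_zero hne)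
  simp only [mul_pow, Finset.prod_mul_distrib]
  rw [Finset.prod_pow_eq_pow_sum, ← Finsupp.degree_eq_sum, hx2]
  ring

theorem pow_mul_mem_homog (hd : 2 ≤ d) (i : Fin n) {E : ℕ} (a : MvPolynomial (Mon n d) ℂ)
    (haE : a.IsHomogeneous E) (ha : Th (by omega : 1 ≤ d) i a = 0) :
    X (Sum.inl i) ^ (d * E) * rename Sum.inr a ∈ J n d := by
  classical
  have h1 : (Ideal.Quotient.mkₐ ℂ (J n d)).comp (Th (by omega : 1 ≤ d) i) =
      (Ideal.Quotient.mkₐ ℂ (J n d)).comp
        (aeval (fun β => X (Sum.inl i) ^ d * X (Sum.inr β) : Mon n d → S n d)) := by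
    apply MvPolynomial.algHom_ext
    intro β
    rw [AlgHom.comp_apply, AlgHom.comp_apply, Th, aeval_X, aeval_X, Ideal.Quotient.mkₐ_eq_mk,
      Ideal.Quotient.mk_eq_mk_iff_sub_mem, sub_sub_cancel_left]
    refine (J n d).neg_mem (Ideal.sum_mem _ (fun k _ => ?_))
    split_ifs
    · exact Ideal.sub_mem _ (Ideal.mul_mem_left _ _ (F_mem k)) (Ideal.mul_mem_left _ _ (gf_mem hd))
    · rw [sub_zero]
      exact Ideal.mul_mem_left _ _ (F_mem k)
    · exact Ideal.zero_mem _
  have h2 := congrArg (fun φ => φ a) h1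
  simp only [AlgHom.comp_apply, ha, map_zero] at h2
  have h3 : aeval (fun β => X (Sum.inl i) ^ d * X (Sum.inr β) : Mon n d → S n d) a =
      X (Sum.inl i) ^ (d * E) * rename Sum.inr a := by
    have h4 : (aeval (fun β => X (Sum.inr β) : Mon n d → S n d)) = rename Sum.inr := by
      apply MvPolynomial.algHom_ext
      intro β
      rw [aeval_X, rename_X]
    rw [aeval_scale haE, ← pow_mul, h4]
  rw [h3, Ideal.Quotient.mkₐ_eq_mk, eq_comm, Ideal.Quotient.eq_zero_iff_mem] at h2
  exact h2

theorem coords_C_mul (c : ℂ) (f : MvPolynomial (Fin n) ℂ) :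
    coords n d (C c * f) = c • coords n d f := by
  funext β
  rw [coords, coeff_C_mul]
  rfl

theorem vanDeg_component (a : MvPolynomial (Mon n d) ℂ) (ha : VanDeg a) (E : ℕ) :
    VanDeg (homogeneousComponent E a) := by
  intro f hf hdeg
  set P : Polynomial ℂ := ∑ e ∈ Finset.range (a.totalDegree + 1),
    Polynomial.C (eval (coords n d f) (homogeneousComponent e a)) * Polynomial.X ^ e with hP
  have h1 : ∀ c : ℂ, P.eval c = 0 := by
    intro c
    have h2 : eval (coords n d (C c * f)) a = 0 := by
      apply ha _ (hf.C_mul c)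
      obtain ⟨z, hz, hz0⟩ := hdeg
      refine ⟨z, hz, fun j => ?_⟩
      rw [pderiv_C_mul]
      simp [hz0 j]
    rw [coords_C_mul, ← sum_homogeneousComponent a, map_sum] at h2
    rw [hP, Polynomial.eval_finsetSum, ← h2]
    refine Finset.sum_congr rfl (fun e _ => ?_)
    rw [Polynomial.eval_C_mul, Polynomial.eval_pow, Polynomial.eval_X]
    have h3 := aeval_scale (homogeneousComponent_isHomogeneous e a) c (coords n d f)
    rw [aeval_eq_eval, aeval_eq_eval] at h3
    change _ = eval (fun β => c * coords n d f β) _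
    rw [h3, mul_comm]
  have h2 : P = 0 := Polynomial.funext (fun c => by rw [h1 c, Polynomial.eval_zero])
  by_cases hE : E ∈ Finset.range (a.totalDegree + 1)
  · have h3 := congrArg (fun p => Polynomial.coeff p E) h2
    simp only [hP, Polynomial.finsetSum_coeff, Polynomial.coeff_C_mul, Polynomial.coeff_X_pow,
      Polynomial.coeff_zero] at h3
    rw [Finset.sum_eq_single E] at h3
    · simpa using h3
    · intro b _ hb
      rw [if_neg (fun h => hb h.symm), mul_zero]
    · intro h; exact absurd hE h
  · rw [homogeneousComponent_eq_zero, map_zero]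
    rw [Finset.mem_range] at hE
    omega

/-- polynomials vanishing on degenerate forms are inertia forms -/
theorem pow_mul_mem (hd : 2 ≤ d) (i : Fin n) (a : MvPolynomial (Mon n d) ℂ) (ha : VanDeg a) :
    X (Sum.inl i) ^ (d * a.totalDegree) * rename Sum.inr a ∈ J n d := by
  have h1 : (rename Sum.inr a : S n d) =
      ∑ e ∈ Finset.range (a.totalDegree + 1), rename Sum.inr (homogeneousComponent e a) := by
    rw [← map_sum, sum_homogeneousComponent]
  rw [h1, Finset.mul_sum]
  refine Ideal.sum_mem _ (fun e he => ?_)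
  rw [Finset.mem_range] at he
  have h2 : d * a.totalDegree = (d * a.totalDegree - d * e) + d * e := by
    have := Nat.mul_le_mul_left d (show e ≤ a.totalDegree by omega)
    omega
  rw [h2, pow_add, mul_assoc]
  exact Ideal.mul_mem_left _ _ (pow_mul_mem_homog hd i _ (homogeneousComponent_isHomogeneous e a)
    ((vanDeg_iff hd i _).1 (vanDeg_component a ha e)))

theorem exists_LT (g : S n d) : ∃ D, g ∈ LT n d D := by
  refine ⟨g.support.sup (W n d) + 1, ?_⟩
  rw [mem_LT]
  intro x hx
  exact Nat.lt_succ_iff.2 (Finset.le_sup (f := W n d) hx)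

theorem z_homog {m : ℕ} (q : MvPolynomial (Fin n) ℂ) (hq : q.IsHomogeneous m) :
    IsWeightedHomogeneous (wz n d) (rename Sum.inl q) m := by
  classical
  intro x hx
  rw [← mem_support_iff, support_rename_of_injective Sum.inl_injective, Finset.mem_image] at hx
  obtain ⟨γ, hγ, rfl⟩ := hx
  have h2 : γ.degree = m := by
    by_contra hne
    exact mem_support_iff.1 hγ (hq.coeff_eq_zero hne)
  rw [weight_wz, ← h2, Finsupp.degree_eq_sum]
  refine Finset.sum_congr rfl (fun j _ => ?_)
  rw [Finsupp.mapDomain_apply Sum.inl_injective]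

theorem c_homog (a : MvPolynomial (Mon n d) ℂ) :
    IsWeightedHomogeneous (wz n d) (rename Sum.inr a) 0 := by
  classical
  intro x hx
  rw [← mem_support_iff, support_rename_of_injective Sum.inr_injective, Finset.mem_image] at hx
  obtain ⟨γ, hγ, rfl⟩ := hx
  rw [weight_wz]
  refine Finset.sum_eq_zero (fun i _ => ?_)
  rw [Finsupp.mapDomain_of_notMem_range]
  rintro ⟨y, hy⟩; exact Sum.inr_ne_inl hy

/-- the key consequence of `claim2` -/
theorem claim3 (hd : 2 ≤ d) (a : MvPolynomial (Mon n d) ℂ)
    (ha : ∀ i : Fin n, ∃ N, X (Sum.inl i) ^ N * rename Sum.inr a ∈ J n d)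
    (q : MvPolynomial (Fin n) ℂ) (hq : q.IsHomogeneous (n * (d - 2))) :
    ∃ b : MvPolynomial (Mon n d) ℂ,
      rename Sum.inr a * rename Sum.inl q - rename Sum.inr b * H n d ∈ J n d := by
  obtain ⟨D, hD⟩ := exists_LT (rename Sum.inr a * rename Sum.inl q : S n d)
  refine claim2 hd D _ hD ?_ ?_
  · have := (c_homog (n := n) (d := d) a).mul (z_homog q hq)
    rwa [zero_add] at this
  · intro i
    obtain ⟨N, hN⟩ := ha i
    exact ⟨N, by rw [← mul_assoc]; exact Ideal.mul_mem_right _ _ hN⟩

theorem hc_mul {m e : ℕ} (p q : MvPolynomial (Fin n) ℂ) (hq : q.IsHomogeneous e) :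
    homogeneousComponent (m + e) (p * q) = homogeneousComponent m p * q := by
  conv_lhs => rw [← sum_homogeneousComponent p, Finset.sum_mul, map_sum]
  have h1 : ∀ k, homogeneousComponent (m + e) (homogeneousComponent k p * q) =
      if m = k then homogeneousComponent k p * q else 0 := by
    intro k
    rw [homogeneousComponent_of_mem ((homogeneousComponent_isHomogeneous k p).mul hq)]
    by_cases h : m = k
    · rw [if_pos (by omega), if_pos h]
    · rw [if_neg (by omega), if_neg h]
  simp only [h1]
  rw [Finset.sum_ite_eq]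
  split_ifs with h
  · rfl
  · rw [homogeneousComponent_eq_zero, zero_mul]
    rw [Finset.mem_range] at h
    omega

/-- maximal minors of the Macaulay matrix -/
theorem minor (f : MvPolynomial (Fin n) ℂ) (hf : f.IsHomogeneous d) (N : ℕ)
    (hN : d - 1 ≤ N) (hall : ∀ α : Mon n N, monomial α.1 1 ∈ jac f) :
    ∃ b : MvPolynomial (Mon n d) ℂ, eval (coords n d f) b ≠ 0 ∧
      ∀ γ : Mon n N, rename Sum.inr b * rename Sum.inl (monomial γ.1 1) ∈ J n d := by
  classical
  have h1 : ∀ α : Mon n N, ∃ h : Fin n → MvPolynomial (Fin n) ℂ,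
      (∀ j, (h j).IsHomogeneous (N - (d - 1))) ∧ ∑ j, h j * pderiv j f = monomial α.1 1 := by
    intro α
    obtain ⟨c, hc⟩ := Ideal.mem_span_range_iff_exists_fun.1 (hall α)
    refine ⟨fun j => homogeneousComponent (N - (d - 1)) (c j),
      fun j => homogeneousComponent_isHomogeneous _ _, ?_⟩
    have h2 := congrArg (homogeneousComponent N) hc
    rw [map_sum, homogeneousComponent_of_mem (isHomogeneous_monomial 1 α.2), if_pos rfl] at h2
    rw [← h2]
    refine Finset.sum_congr rfl (fun j _ => ?_)
    have h3 := hc_mul (m := N - (d - 1)) (c j) (pderiv j f) (hf.pderiv)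
    rw [show N - (d - 1) + (d - 1) = N by omega] at h3
    rw [h3]
  choose h hh hsum using h1
  let Q : Mon n N → Mon n d → MvPolynomial (Fin n) ℂ :=
    fun α β => ∑ j, h α j * pderiv j (monomial β.1 1)
  have hQ : ∀ α β, (Q α β).IsHomogeneous N := by
    intro α β
    refine IsHomogeneous.sum _ _ _ (fun j _ => ?_)
    have := (hh α j).mul ((isHomogeneous_monomial (1 : ℂ) β.2).pderiv (i := j))
    rwa [show N - (d - 1) + (d - 1) = N by omega] at this
  let M : Matrix (Mon n N) (Mon n N) (MvPolynomial (Mon n d) ℂ) :=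
    Matrix.of fun α γ => ∑ β, C (coeff γ.1 (Q α β)) * X β
  have hG : ∀ α, ∑ γ, rename Sum.inr (M α γ) * rename Sum.inl (monomial γ.1 1) ∈ J n d := by
    intro α
    have h2 : ∑ γ, rename Sum.inr (M α γ) * rename Sum.inl (monomial γ.1 1) =
        ∑ j, rename Sum.inl (h α j) * F n d j := by
      have h3 : ∑ j, rename Sum.inl (h α j) * F n d j = lin (Q α) := by
        simp only [F_eq, lin, Finset.mul_sum]
        rw [Finset.sum_comm]
        refine Finset.sum_congr rfl (fun β _ => ?_)
        simp only [Q, map_sum, map_mul, Finset.mul_sum]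
        refine Finset.sum_congr rfl (fun j _ => ?_)
        ring
      rw [h3, lin]
      simp only [M, Matrix.of_apply, map_sum, Finset.sum_mul]
      rw [Finset.sum_comm]
      refine Finset.sum_congr rfl (fun β _ => ?_)
      conv_rhs => rw [← sum_mon (Q α β) (hQ α β), map_sum, Finset.mul_sum]
      refine Finset.sum_congr rfl (fun γ _ => ?_)
      rw [map_mul, rename_C, rename_X]
      have h4 : (monomial γ.1 (coeff γ.1 (Q α β)) : MvPolynomial (Fin n) ℂ) =
          C (coeff γ.1 (Q α β)) * monomial γ.1 1 := by rw [C_mul_monomial, mul_one]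
      rw [h4, map_mul, rename_C]
      ring
    rw [h2]
    exact Ideal.sum_mem _ (fun j _ => Ideal.mul_mem_left _ _ (F_mem j))
  have hM : M.map (eval (coords n d f)) = 1 := by
    ext α γ
    rw [Matrix.map_apply, Matrix.one_apply]
    change eval (coords n d f) (∑ β, C (coeff γ.1 (Q α β)) * X β) = _
    rw [map_sum]
    have h2 : ∑ β : Mon n d, eval (coords n d f) (C (coeff γ.1 (Q α β)) * X β) =
        coeff γ.1 (∑ j, h α j * pderiv j f) := by
      conv_rhs => rw [← sum_mon f hf]
      simp only [map_sum, Finset.mul_sum]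
      rw [Finset.sum_comm]
      simp only [coeff_sum]
      refine Finset.sum_congr rfl (fun β _ => ?_)
      rw [map_mul, eval_C, eval_X]
      have h4 : (monomial β.1 (coeff β.1 f) : MvPolynomial (Fin n) ℂ) =
          C (coeff β.1 f) * monomial β.1 1 := by rw [C_mul_monomial, mul_one]
      simp only [Q, coeff_sum, Finset.sum_mul]
      refine Finset.sum_congr rfl (fun j _ => ?_)
      rw [h4, pderiv_C_mul]
      have h5 : h α j * (C (coeff β.1 f) * pderiv j (monomial β.1 1)) =
          C (coeff β.1 f) * (h α j * pderiv j (monomial β.1 1)) := by ring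
      rw [h5, coeff_C_mul, mul_comm]
      rfl
    rw [h2, hsum α, coeff_monomial]
    by_cases hαγ : α = γ
    · rw [if_pos (by rw [hαγ]), if_pos hαγ]
    · rw [if_neg (fun h => hαγ (Subtype.ext h)), if_neg hαγ]
  refine ⟨M.det, ?_, ?_⟩
  · rw [RingHom.map_det, RingHom.mapMatrix_apply, hM, Matrix.det_one]
    exact one_ne_zero
  · intro γ
    have h2 : rename Sum.inr M.det * rename Sum.inl (monomial γ.1 1) =
        ∑ α, rename Sum.inr (M.adjugate γ α) *
          ∑ γ', rename Sum.inr (M α γ') * (rename Sum.inl (monomial γ'.1 1) : S n d) := by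
      simp only [Finset.mul_sum]
      rw [Finset.sum_comm]
      have h3 : ∀ γ' : Mon n N, ∑ α, rename Sum.inr (M.adjugate γ α) *
          (rename Sum.inr (M α γ') * (rename Sum.inl (monomial γ'.1 1) : S n d)) =
          if γ = γ' then rename Sum.inr M.det * rename Sum.inl (monomial γ'.1 1) else 0 := by
        intro γ'
        have h4 : ∑ α, M.adjugate γ α * M α γ' = if γ = γ' then M.det else 0 := by
          have h5 := congrFun (congrFun (Matrix.adjugate_mul M) γ) γ'
          rw [Matrix.mul_apply] at h5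
          rw [h5, Matrix.smul_apply, Matrix.one_apply, smul_eq_mul, mul_ite, mul_one, mul_zero]
        simp only [← mul_assoc]
        rw [← Finset.sum_mul]
        simp only [← map_mul]
        rw [← map_sum, h4]
        split_ifs
        · rfl
        · rw [map_zero, zero_mul]
      simp only [h3, Finset.sum_ite_eq, Finset.mem_univ, if_true]
    rw [h2]
    exact Ideal.sum_mem _ (fun α _ => Ideal.mul_mem_left _ _ (hG α))

/-- for a nondegenerate form, all monomials of some degree lie in the ideal of the partials -/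
theorem exists_degree (f : MvPolynomial (Fin n) ℂ) (hnd : ¬ Degen f) :
    ∃ N, d ≤ N ∧ ∀ α : Mon n N, monomial α.1 1 ∈ jac f := by
  have h1 : ∀ i : Fin n, ∃ K, (X i : MvPolynomial (Fin n) ℂ) ^ K ∈ jac f := by
    intro i
    rw [← Ideal.mem_radical_iff, ← vanishingIdeal_zeroLocus_eq_radical (K := ℂ),
      mem_vanishingIdeal_iff]
    intro x hx
    rw [mem_zeroLocus_iff] at hx
    have h2 : x = 0 := by
      by_contra hne
      refine hnd ⟨x, hne, fun j => ?_⟩
      have := hx (pderiv j f) (Ideal.subset_span ⟨j, rfl⟩)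
      rwa [aeval_eq_eval] at this
    rw [h2, aeval_X]
    rfl
  choose K hK using h1
  refine ⟨n * (∑ i, K i) + d + 1, by omega, fun α => ?_⟩
  obtain ⟨i, hi⟩ : ∃ i, K i ≤ α.1 i := by
    by_contra hcon
    push Not at hcon
    have h2 : α.1.degree ≤ ∑ _i : Fin n, ∑ i, K i := by
      rw [Finsupp.degree_eq_sum]
      refine Finset.sum_le_sum (fun i _ => ?_)
      exact (hcon i).le.trans (Finset.single_le_sum (fun _ _ => Nat.zero_le _) (Finset.mem_univ i))
    rw [α.2, Finset.sum_const, Finset.card_univ, Fintype.card_fin, smul_eq_mul] at h2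
    omega
  have h3 : (monomial α.1 1 : MvPolynomial (Fin n) ℂ) =
      monomial (α.1 - Finsupp.single i (K i)) 1 * X i ^ K i := by
    rw [X_pow_eq_monomial, monomial_mul, one_mul, tsub_add_cancel_of_le]
    intro t
    rw [Finsupp.single_apply]
    split_ifs with h
    · rw [← h]; exact hi
    · exact Nat.zero_le _
  rw [h3]
  exact Ideal.mul_mem_left _ _ (hK i)

end Pool.Agent.W467.AF
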