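import Pool.Agent.W467.Claim2

/-! Polynomials in the coefficients which vanish on degenerate forms. -/

set_option autoImplicit false

namespace Pool.Agent.W467.AF

open MvPolynomial

variable {n d : ℕ}

/-- the coefficients of a form of degree `d` -/
noncomputable def coords (n d : ℕ) (f : MvPolynomial (Fin n) ℂ) : Mon n d → ℂ :=
  fun β => coeff β.1 f

/-- specialisation of the generic form to `f` -/
noncomputable def ev (f : MvPolynomial (Fin n) ℂ) : S n d →ₐ[ℂ] MvPolynomial (Fin n) ℂ :=
  aeval (Sum.elim X (C ∘ coords n d f))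

theorem ev_rename_inl (f : MvPolynomial (Fin n) ℂ) (q : MvPolynomial (Fin n) ℂ) :
    ev (d := d) f (rename Sum.inl q) = q := by
  rw [ev, aeval_rename, Sum.elim_comp_inl, aeval_X_left, AlgHom.id_apply]

theorem ev_rename_inr (f : MvPolynomial (Fin n) ℂ) (a : MvPolynomial (Mon n d) ℂ) :
    ev f (rename Sum.inr a) = C (eval (coords n d f) a) := by
  rw [ev, aeval_rename, Sum.elim_comp_inr]
  induction a using MvPolynomial.induction_on with
  | C a => simp
  | add p q hp hq => rw [map_add, map_add, map_add, hp, hq]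
  | mul_X p β hp => rw [map_mul, map_mul, map_mul, hp, aeval_X, eval_X]; rfl

theorem sum_mon (f : MvPolynomial (Fin n) ℂ) (hf : f.IsHomogeneous d) :
    ∑ β : Mon n d, monomial β.1 (coeff β.1 f) = f := by
  classical
  ext γ
  rw [coeff_sum]
  simp only [coeff_monomial]
  by_cases hγ : γ.degree = d
  · rw [Finset.sum_eq_single (⟨γ, hγ⟩ : Mon n d)]
    · rw [if_pos rfl]
    · intro β _ hβ
      rw [if_neg]
      intro h
      exact hβ (Subtype.ext h)
    · simp
  · rw [hf.coeff_eq_zero hγ]
    refine Finset.sum_eq_zero (fun β _ => ?_)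
    rw [if_neg]
    intro h
    exact hγ (h ▸ β.2)

theorem ev_gf (f : MvPolynomial (Fin n) ℂ) (hf : f.IsHomogeneous d) : ev f (gf n d) = f := by
  conv_rhs => rw [← sum_mon f hf]
  rw [gf, lin, map_sum]
  refine Finset.sum_congr rfl (fun β _ => ?_)
  rw [map_mul, ev_rename_inl, ev, aeval_X, Sum.elim_inr, Function.comp_apply, C_mul_monomial,
    mul_one]
  rfl

theorem ev_F (f : MvPolynomial (Fin n) ℂ) (hf : f.IsHomogeneous d) (i : Fin n) :
    ev f (F n d i) = pderiv i f := by
  have h1 := aeval_sumElim_pderiv_inl (gf n d) (coords n d f) i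
  have h2 := ev_gf f hf
  rw [F]
  rw [ev] at h2 ⊢
  rw [h1, h2]

/-- the Hessian determinant of `f` -/
noncomputable def hess (f : MvPolynomial (Fin n) ℂ) : MvPolynomial (Fin n) ℂ :=
  (Matrix.of fun i j => pderiv i (pderiv j f)).det

theorem ev_H (f : MvPolynomial (Fin n) ℂ) (hf : f.IsHomogeneous d) : ev f (H n d) = hess f := by
  rw [H, AlgHom.map_det, hess]
  congr 1
  ext i j : 1
  rw [AlgHom.mapMatrix_apply, Matrix.map_apply, Matrix.of_apply]
  have h1 := aeval_sumElim_pderiv_inl (F n d j) (coords n d f) i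
  have h2 := ev_F f hf j
  rw [ev] at h2 ⊢
  rw [← h2, ← h1]
  rfl

/-- the ideal generated by the partial derivatives of `f` -/
noncomputable def jac (f : MvPolynomial (Fin n) ℂ) : Ideal (MvPolynomial (Fin n) ℂ) :=
  Ideal.span (Set.range fun i => pderiv i f)

theorem ev_J (f : MvPolynomial (Fin n) ℂ) (hf : f.IsHomogeneous d) {h : S n d}
    (hh : h ∈ J n d) : ev f h ∈ jac f := by
  have h1 : J n d ≤ (jac f).comap (ev f) := by
    refine Ideal.span_le.2 ?_
    rintro _ ⟨i, rfl⟩
    rw [SetLike.mem_coe, Ideal.mem_comap, ev_F f hf]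
    exact Ideal.subset_span ⟨i, rfl⟩
  exact h1 hh

/-- `f` has a critical point with nonzero `i`-th coordinate -/
def Crit (i : Fin n) (f : MvPolynomial (Fin n) ℂ) : Prop :=
  ∃ z : Fin n → ℂ, z i ≠ 0 ∧ ∀ j, eval z (pderiv j f) = 0

/-- the monomial `z_i ^ (d - 1) z_k` -/
noncomputable def qm (hd : 1 ≤ d) (i k : Fin n) : Mon n d :=
  ⟨Finsupp.single i (d - 1) + Finsupp.single k 1, by
    rw [map_add, Finsupp.degree_single, Finsupp.degree_single]; omega⟩

open Classical in
/-- the twist `f ↦ f̃` on generic coefficients -/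
noncomputable def Th (hd : 1 ≤ d) (i : Fin n) : MvPolynomial (Mon n d) ℂ →ₐ[ℂ] S n d :=
  aeval (fun β => X (Sum.inl i) ^ d * X (Sum.inr β) -
    ∑ k, if β = qm hd i k then
      (X (Sum.inl i) * F n d k - if k = i then C ((d : ℂ) - 1) * gf n d else 0) else 0)

/-- the twisted form: it has a critical point at `z` -/
noncomputable def tw (d : ℕ) (i : Fin n) (f : MvPolynomial (Fin n) ℂ) (z : Fin n → ℂ) :
    MvPolynomial (Fin n) ℂ :=
  C (z i ^ d) * f - ∑ k, C (z i * eval z (pderiv k f)) * (X i ^ (d - 1) * X k)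
    + C (((d : ℂ) - 1) * eval z f) * X i ^ d

theorem tw_homog (hd : 1 ≤ d) (i : Fin n) (f : MvPolynomial (Fin n) ℂ) (hf : f.IsHomogeneous d)
    (z : Fin n → ℂ) : (tw d i f z).IsHomogeneous d := by
  refine IsHomogeneous.add (IsHomogeneous.sub (hf.C_mul _) (IsHomogeneous.sum _ _ _
    (fun k _ => IsHomogeneous.C_mul ?_ _))) (IsHomogeneous.C_mul ?_ _)
  · have := (isHomogeneous_X_pow (R := ℂ) i (d - 1)).mul (isHomogeneous_X ℂ k)
    rwa [show d - 1 + 1 = d by omega] at this
  · exact isHomogeneous_X_pow i d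

theorem euler_form (f : MvPolynomial (Fin n) ℂ) (hf : f.IsHomogeneous d) (z : Fin n → ℂ) :
    ∑ k, z k * eval z (pderiv k f) = d * eval z f := by
  have h1 := congrArg (eval z) hf.sum_X_mul_pderiv
  rw [map_sum, nsmul_eq_mul, map_mul, map_natCast] at h1
  rw [← h1]
  refine Finset.sum_congr rfl (fun k _ => ?_)
  rw [map_mul, eval_X]

theorem tw_crit (hd : 2 ≤ d) (i : Fin n) (f : MvPolynomial (Fin n) ℂ) (hf : f.IsHomogeneous d)
    (z : Fin n → ℂ) (j : Fin n) : eval z (pderiv j (tw d i f z)) = 0 := by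
  classical
  have he := euler_form f hf z
  obtain ⟨e, rfl⟩ : ∃ e, d = e + 2 := ⟨d - 2, by omega⟩
  have h1 : ∀ k, eval z (pderiv j (X i ^ (e + 1) * X k : MvPolynomial (Fin n) ℂ)) =
      (if j = i then ((e : ℂ) + 1) * z i ^ e * z k else 0) +
      (if j = k then z i ^ (e + 1) else 0) := by
    intro k
    rw [pderiv_mul, pderiv_pow, pderiv_X, pderiv_X]
    by_cases hji : j = i
    · subst hji
      by_cases hjk : j = k
      · subst hjk
        simp
      · rw [Pi.single_eq_of_ne (Ne.symm hjk), if_neg hjk]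
        simp
    · rw [Pi.single_eq_of_ne (Ne.symm hji), if_neg hji]
      by_cases hjk : j = k
      · subst hjk
        simp
      · rw [Pi.single_eq_of_ne (Ne.symm hjk), if_neg hjk]
        simp
  have h2 : eval z (pderiv j (X i ^ (e + 2) : MvPolynomial (Fin n) ℂ)) =
      if j = i then ((e : ℂ) + 2) * z i ^ (e + 1) else 0 := by
    rw [pderiv_pow, pderiv_X]
    by_cases hji : j = i
    · subst hji
      simp
    · rw [Pi.single_eq_of_ne (Ne.symm hji), if_neg hji]
      simp
  have key : ∀ (a : ℂ) (p : MvPolynomial (Fin n) ℂ),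
      eval z (pderiv j (C a * p)) = a * eval z (pderiv j p) := by
    intro a p
    rw [pderiv_C_mul]
    simp
  rw [tw, map_add, map_add, map_sub, map_sub, map_sum, map_sum, key, key,
    Finset.sum_congr rfl (fun k _ => key _ _), show e + 2 - 1 = e + 1 by omega, h2,
    Finset.sum_congr rfl (fun k _ => by rw [h1 k])]
  simp only [mul_add, Finset.sum_add_distrib, mul_ite, mul_zero, Finset.sum_ite_eq,
    Finset.mem_univ, if_true]
  by_cases hji : j = i
  · subst hji
    simp only [if_true]
    have h3 : ∑ k, z j * eval z (pderiv k f) * (((e : ℂ) + 1) * z j ^ e * z k) =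
        ((e : ℂ) + 1) * z j ^ (e + 1) * ∑ k, z k * eval z (pderiv k f) := by
      rw [Finset.mul_sum]
      refine Finset.sum_congr rfl (fun k _ => ?_)
      ring
    rw [h3, he]
    push_cast
    ring
  · simp only [if_neg hji, Finset.sum_const_zero]
    ring

theorem coords_tw (hd : 1 ≤ d) (i : Fin n) (f : MvPolynomial (Fin n) ℂ)
    (z : Fin n → ℂ) (β : Mon n d) [DecidableEq (Mon n d)] : coords n d (tw d i f z) β =
      z i ^ d * coeff β.1 f - ∑ k, if β = qm hd i k then
      (z i * eval z (pderiv k f) - if k = i then ((d : ℂ) - 1) * eval z f else 0) else 0 := by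
  classical
  have h1 : ∀ k, coeff β.1 (X i ^ (d - 1) * X k : MvPolynomial (Fin n) ℂ) =
      if β = qm hd i k then 1 else 0 := by
    intro k
    rw [X_pow_eq_monomial, X, monomial_mul, coeff_monomial, one_mul]
    by_cases h : β = qm hd i k
    · rw [if_pos h, if_pos (by rw [h]; rfl)]
    · rw [if_neg h, if_neg (fun h' => h (Subtype.ext h'.symm))]
  have h2 : coeff β.1 (X i ^ d : MvPolynomial (Fin n) ℂ) = if β = qm hd i i then 1 else 0 := by
    rw [← h1 i, ← pow_succ, show d - 1 + 1 = d by omega]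
  simp only [coords, tw, coeff_add, coeff_sub, coeff_C_mul, coeff_sum, h1, h2]
  have h3 : ∑ k, (if β = qm hd i k then
      (z i * eval z (pderiv k f) - if k = i then ((d : ℂ) - 1) * eval z f else 0) else 0) =
      ∑ k, (z i * eval z (pderiv k f)) * (if β = qm hd i k then 1 else 0) -
      ((d : ℂ) - 1) * eval z f * (if β = qm hd i i then 1 else 0) := by
    rw [eq_sub_iff_add_eq, ← Finset.add_sum_erase _ _ (Finset.mem_univ i),
      ← Finset.add_sum_erase _ (fun k => (z i * eval z (pderiv k f)) *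
        (if β = qm hd i k then 1 else 0)) (Finset.mem_univ i)]
    have h4 : ∑ k ∈ Finset.univ.erase i, (if β = qm hd i k then
        (z i * eval z (pderiv k f) - if k = i then ((d : ℂ) - 1) * eval z f else 0) else 0) =
        ∑ k ∈ Finset.univ.erase i, (z i * eval z (pderiv k f)) *
        (if β = qm hd i k then 1 else 0) := by
      refine Finset.sum_congr rfl (fun k hk => ?_)
      rw [if_neg (Finset.ne_of_mem_erase hk), sub_zero]
      split_ifs <;> simp
    rw [h4, if_pos rfl]
    split_ifs <;> ring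
  rw [h3]
  ring

/-- evaluation at a point -/
theorem eval_pt (f : MvPolynomial (Fin n) ℂ) (z : Fin n → ℂ) (h : S n d) :
    eval (Sum.elim z (coords n d f)) h = eval z (ev f h) := by
  rw [ev]
  induction h using MvPolynomial.induction_on with
  | C a => simp
  | add p q hp hq => rw [map_add, map_add, map_add, hp, hq]
  | mul_X p t hp =>
    rw [map_mul, map_mul, map_mul, hp, aeval_X, eval_X]
    rcases t with k | β
    · simp
    · simp

theorem eval_Th (hd : 1 ≤ d) (i : Fin n) (f : MvPolynomial (Fin n) ℂ) (hf : f.IsHomogeneous d)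
    (z : Fin n → ℂ) (a : MvPolynomial (Mon n d) ℂ) :
    eval (Sum.elim z (coords n d f)) (Th hd i a) = eval (coords n d (tw d i f z)) a := by
  classical
  rw [Th]
  induction a using MvPolynomial.induction_on with
  | C a => simp
  | add p q hp hq => rw [map_add, map_add, map_add, hp, hq]
  | mul_X p β hp =>
    rw [map_mul, map_mul, map_mul, hp, aeval_X, eval_X, coords_tw hd]
    congr 1
    rw [map_sub, map_mul, map_pow, eval_X, eval_X, map_sum]
    congr 1
    refine Finset.sum_congr rfl (fun k _ => ?_)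
    split_ifs with h1 h2
    · rw [map_sub, map_mul, map_mul, eval_X, eval_C, eval_pt, eval_pt, ev_F f hf, ev_gf f hf]
      rfl
    · rw [map_sub, map_mul, eval_X, eval_pt, ev_F f hf, map_zero]
      rfl
    · rw [map_zero]

/-- the form with given coefficients -/
noncomputable def ofCoords (c : Mon n d → ℂ) : MvPolynomial (Fin n) ℂ := ∑ β, monomial β.1 (c β)

theorem ofCoords_homog (c : Mon n d → ℂ) : (ofCoords c).IsHomogeneous d :=
  IsHomogeneous.sum _ _ _ (fun β _ => isHomogeneous_monomial _ β.2)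

theorem coords_ofCoords (c : Mon n d → ℂ) : coords n d (ofCoords c) = c := by
  classical
  funext β
  rw [coords, ofCoords, coeff_sum, Finset.sum_eq_single β]
  · rw [coeff_monomial, if_pos rfl]
  · intro γ _ hγ
    rw [coeff_monomial, if_neg]
    intro h
    exact hγ (Subtype.ext h)
  · simp

theorem eq_zero_of_eval (h : S n d) (i j : Fin n)
    (H : ∀ (f : MvPolynomial (Fin n) ℂ) (z : Fin n → ℂ), f.IsHomogeneous d → z i ≠ 0 → z j ≠ 0 →
      eval (Sum.elim z (coords n d f)) h = 0) : h = 0 := by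
  have h1 : X (Sum.inl i) * (X (Sum.inl j) * h) = 0 := by
    apply MvPolynomial.funext
    intro x
    rw [map_mul, map_mul, eval_X, eval_X, map_zero]
    by_cases hi : x (Sum.inl i) = 0
    · rw [hi, zero_mul]
    by_cases hj : x (Sum.inl j) = 0
    · rw [hj, zero_mul, mul_zero]
    have h2 := H (ofCoords (fun β => x (Sum.inr β))) (fun k => x (Sum.inl k)) (ofCoords_homog _)
      hi hj
    rw [coords_ofCoords] at h2
    have h3 : (Sum.elim (fun k => x (Sum.inl k)) (fun β => x (Sum.inr β))) = x := by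
      funext t
      rcases t with k | β <;> rfl
    rw [h3] at h2
    rw [h2, mul_zero, mul_zero]
  rcases mul_eq_zero.1 h1 with h | h
  · exact absurd h (X_ne_zero _)
  · rcases mul_eq_zero.1 h with h | h
    · exact absurd h (X_ne_zero _)
    · exact h

theorem Th_eq_zero (hd : 2 ≤ d) (i j : Fin n) (a : MvPolynomial (Mon n d) ℂ)
    (ha : ∀ f : MvPolynomial (Fin n) ℂ, f.IsHomogeneous d → Crit i f →
      eval (coords n d f) a = 0) : Th (by omega : 1 ≤ d) j a = 0 := by
  refine eq_zero_of_eval _ i j (fun f z hf hi hj => ?_)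
  rw [eval_Th _ _ f hf]
  exact ha _ (tw_homog (by omega) j f hf z) ⟨z, hi, tw_crit hd j f hf z⟩

theorem eval_smul_homog {m : ℕ} {p : MvPolynomial (Fin n) ℂ} (hp : p.IsHomogeneous m) (c : ℂ)
    (z : Fin n → ℂ) : eval (c • z) p = c ^ m * eval z p := by
  rw [eval_eq', eval_eq', Finset.mul_sum]
  refine Finset.sum_congr rfl (fun x hx => ?_)
  have hx2 : x.degree = m := by
    by_contra hne
    exact mem_support_iff.1 hx (hp.coeff_eq_zero hne)
  simp only [Pi.smul_apply, smul_eq_mul, mul_pow, Finset.prod_mul_distrib]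
  rw [Finset.prod_pow_eq_pow_sum, ← Finsupp.degree_eq_sum, hx2]
  ring

theorem vanish_of_Th (hd : 2 ≤ d) (i : Fin n) (a : MvPolynomial (Mon n d) ℂ)
    (ha : Th (by omega : 1 ≤ d) i a = 0) (f : MvPolynomial (Fin n) ℂ) (hf : f.IsHomogeneous d)
    (hc : Crit i f) : eval (coords n d f) a = 0 := by
  obtain ⟨z, hz, hz0⟩ := hc
  have hw : ∀ k, eval ((z i)⁻¹ • z) (pderiv k f) = 0 := by
    intro k
    have h1 := hf.pderiv (i := k)
    rw [eval_smul_homog h1, hz0, mul_zero]
  have h1 := eval_Th (by omega : 1 ≤ d) i f hf ((z i)⁻¹ • z) a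
  rw [ha, map_zero] at h1
  have h2 : tw d i f ((z i)⁻¹ • z) = f := by
    have h3 : eval ((z i)⁻¹ • z) f = 0 := by
      have h4 := euler_form f hf ((z i)⁻¹ • z)
      rw [Finset.sum_eq_zero (fun k _ => by rw [hw k, mul_zero])] at h4
      rcases mul_eq_zero.1 h4.symm with h | h
      · exact absurd h (Nat.cast_ne_zero.2 (by omega))
      · exact h
    rw [tw, h3]
    simp only [hw]
    rw [Pi.smul_apply, smul_eq_mul, inv_mul_cancel₀ hz]
    simp
  rw [h2] at h1
  exact h1.symm

/-- `f` is degenerate: its partial derivatives have a nonzero common zero -/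
def Degen (f : MvPolynomial (Fin n) ℂ) : Prop :=
  ∃ z : Fin n → ℂ, z ≠ 0 ∧ ∀ j, eval z (pderiv j f) = 0

/-- polynomials in the coefficients vanishing at all degenerate forms -/
def VanDeg (a : MvPolynomial (Mon n d) ℂ) : Prop :=
  ∀ f : MvPolynomial (Fin n) ℂ, f.IsHomogeneous d → Degen f → eval (coords n d f) a = 0

theorem vanDeg_iff (hd : 2 ≤ d) (i : Fin n) (a : MvPolynomial (Mon n d) ℂ) :
    VanDeg a ↔ Th (by omega : 1 ≤ d) i a = 0 := by
  constructor
  · intro h
    refine Th_eq_zero hd i i a (fun f hf hc => h f hf ?_)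
    obtain ⟨z, hz, hz0⟩ := hc
    exact ⟨z, fun h => hz (by rw [h]; rfl), hz0⟩
  · intro h f hf hc
    obtain ⟨z, hz, hz0⟩ := hc
    obtain ⟨j, hj⟩ := Function.ne_iff.1 hz
    refine vanish_of_Th hd j a ?_ f hf ⟨z, hj, hz0⟩
    exact Th_eq_zero hd i j a (fun g hg hc => vanish_of_Th hd i a h g hg hc)

end Pool.Agent.W467.AF
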